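import Mathlib

/-!
# Permutations of words preserving the tree structure, supports and level stabilisers
-/

set_option autoImplicit false

namespace Pool.Agent.H335.BR

open Equiv.Perm

variable {X : Type}

/-- permutations of words that are automorphisms of the rooted tree -/
def IsTree (g : Equiv.Perm (List X)) : Prop :=
  (∀ w, (g w).length = w.length) ∧ ∀ u w, u <+: w → g u <+: g w

/-- `g` is supported on the words extending `v` -/
def Off (v : List X) (g : Equiv.Perm (List X)) : Prop := ∀ u, ¬ v <+: u → g u = u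

/-- `g` fixes the words extending `v` -/
def On (v : List X) (g : Equiv.Perm (List X)) : Prop := ∀ u, v <+: u → g u = u

/-- `g` fixes the words of length `n` -/
def St (n : ℕ) (g : Equiv.Perm (List X)) : Prop := ∀ u : List X, u.length = n → g u = u

theorem ap_inv (g : Equiv.Perm (List X)) (p : List X) : g (g⁻¹ p) = p := g.apply_symm_apply p
theorem inv_ap (g : Equiv.Perm (List X)) (p : List X) : g⁻¹ (g p) = p := g.symm_apply_apply p

theorem pre_eq {u v w : List X} (hu : u <+: w) (hv : v <+: w) (h : u.length = v.length) :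
    u = v := by
  rcases List.prefix_or_prefix_of_prefix hu hv with h' | h'
  · exact h'.eq_of_length h
  · exact (h'.eq_of_length h.symm).symm

theorem pre_of_le {u v w : List X} (hu : u <+: w) (hv : v <+: w) (h : u.length ≤ v.length) :
    u <+: v := by
  rcases List.prefix_or_prefix_of_prefix hu hv with h' | h'
  · exact h'
  · rw [h'.eq_of_length (le_antisymm h'.length_le h)]

theorem IsTree.one : IsTree (1 : Equiv.Perm (List X)) := ⟨fun _ => rfl, fun _ _ h => h⟩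

theorem IsTree.mul {g h : Equiv.Perm (List X)} (hg : IsTree g) (hh : IsTree h) :
    IsTree (g * h) :=
  ⟨fun w => (hg.1 (h w)).trans (hh.1 w), fun u w huw => hg.2 _ _ (hh.2 _ _ huw)⟩

theorem IsTree.inv {g : Equiv.Perm (List X)} (hg : IsTree g) : IsTree g⁻¹ := by
  have h1 : ∀ w, (g⁻¹ w).length = w.length := fun w => by
    conv_rhs => rw [← ap_inv g w]
    rw [hg.1]
  refine ⟨h1, fun u w huw => ?_⟩
  -- the prefix of `g⁻¹ w` of the right length
  set p := (g⁻¹ w).take u.length with hp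
  have h2 : p <+: g⁻¹ w := List.take_prefix _ _
  have h3 : g p <+: w := by
    have := hg.2 _ _ h2
    rwa [ap_inv] at this
  have h4 : p.length = u.length := by
    rw [hp, List.length_take, h1]
    exact min_eq_left huw.length_le
  have h5 : g p = u := pre_eq h3 huw (by rw [hg.1, h4])
  rw [← h5, inv_ap]
  exact h2

theorem IsTree.pre_iff {g : Equiv.Perm (List X)} (hg : IsTree g) {u w : List X} :
    g u <+: g w ↔ u <+: w := by
  refine ⟨fun h => ?_, hg.2 _ _⟩
  have := hg.inv.2 _ _ h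
  rwa [inv_ap, inv_ap] at this

theorem IsTree.fix_pre {g : Equiv.Perm (List X)} (hg : IsTree g) {u w : List X} (h : u <+: w)
    (hw : g w = w) : g u = u := by
  have h1 := hg.2 _ _ h
  rw [hw] at h1
  exact pre_eq h1 h (hg.1 u)

/-- if `g u` and `w'` are comparable with a common extension... : images of prefixes -/
theorem IsTree.map_pre {g : Equiv.Perm (List X)} (hg : IsTree g) {u w u' w' : List X}
    (h : u <+: w) (hw : g w = w') (h' : u' <+: w') (hl : u.length = u'.length) : g u = u' := by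
  have h1 := hg.2 _ _ h
  rw [hw] at h1
  exact pre_eq h1 h' (by rw [hg.1, hl])

theorem St.mono [Nonempty X] {m n : ℕ} (hmn : n ≤ m) {g : Equiv.Perm (List X)} (hg : IsTree g)
    (h : St m g) : St n g := by
  intro u hu
  obtain ⟨x⟩ := ‹Nonempty X›
  have h1 : u <+: u ++ List.replicate (m - n) x := List.prefix_append _ _
  refine hg.fix_pre h1 (h _ ?_)
  rw [List.length_append, List.length_replicate, hu]
  omega

theorem Off.one (v : List X) : Off v 1 := fun _ _ => rfl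
theorem On.one (v : List X) : On v 1 := fun _ _ => rfl
theorem St.one (n : ℕ) : St n (1 : Equiv.Perm (List X)) := fun _ _ => rfl

theorem Off.mul {v : List X} {g h : Equiv.Perm (List X)} (hg : Off v g) (hh : Off v h) :
    Off v (g * h) := fun u hu => by rw [mul_apply, hh u hu, hg u hu]
theorem On.mul {v : List X} {g h : Equiv.Perm (List X)} (hg : On v g) (hh : On v h) :
    On v (g * h) := fun u hu => by rw [mul_apply, hh u hu, hg u hu]
theorem St.mul {n : ℕ} {g h : Equiv.Perm (List X)} (hg : St n g) (hh : St n h) :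
    St n (g * h) := fun u hu => by rw [mul_apply, hh u hu, hg u hu]

theorem Off.inv {v : List X} {g : Equiv.Perm (List X)} (hg : Off v g) : Off v g⁻¹ :=
  fun u hu => by
    conv_lhs => rw [← hg u hu]
    exact inv_ap g u
theorem On.inv {v : List X} {g : Equiv.Perm (List X)} (hg : On v g) : On v g⁻¹ :=
  fun u hu => by
    conv_lhs => rw [← hg u hu]
    exact inv_ap g u
theorem St.inv {n : ℕ} {g : Equiv.Perm (List X)} (hg : St n g) : St n g⁻¹ :=
  fun u hu => by
    conv_lhs => rw [← hg u hu]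
    exact inv_ap g u

/-- a permutation supported on the cone of `v` preserves the cone of `v` -/
theorem Off.pre {v : List X} {g : Equiv.Perm (List X)} (hg : Off v g) {u : List X}
    (hu : v <+: u) : v <+: g u := by
  by_contra h
  have := hg _ h
  rw [g.injective this] at h
  exact h hu

theorem Off.fix {v : List X} {g : Equiv.Perm (List X)} (hg : Off v g) (ht : IsTree g) :
    g v = v := (pre_eq (hg.pre (List.prefix_refl v)) (List.prefix_refl _) (ht.1 v).symm).symm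

theorem Off.mono {v v' : List X} (h : v' <+: v) {g : Equiv.Perm (List X)} (hg : Off v g) :
    Off v' g := fun u hu => hg u fun h' => hu (h.trans h')

theorem On.mono {v v' : List X} (h : v <+: v') {g : Equiv.Perm (List X)} (hg : On v g) :
    On v' g := fun u hu => hg u (h.trans hu)

theorem On.fix {v : List X} {g : Equiv.Perm (List X)} (hg : On v g) : g v = v :=
  hg v (List.prefix_refl v)

theorem Off.st {v : List X} {g : Equiv.Perm (List X)} (hg : Off v g) (ht : IsTree g) {n : ℕ}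
    (hn : n ≤ v.length) : St n g := by
  intro u hu
  by_cases h : v <+: u
  · have h1 := h.length_le
    have h2 : v = u := h.eq_of_length (by omega)
    rw [← h2]
    exact hg.fix ht
  · exact hg u h

theorem Off.conj {v : List X} {g h : Equiv.Perm (List X)} (ht : IsTree g) (hh : Off v h) :
    Off (g v) (g * h * g⁻¹) := by
  intro u hu
  have h1 : ¬ v <+: g⁻¹ u := fun h => hu (by
    have := ht.2 _ _ h
    rwa [ap_inv] at this)
  rw [mul_apply, mul_apply, hh _ h1, ap_inv]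

theorem On.conj {v : List X} {g h : Equiv.Perm (List X)} (ht : IsTree g) (hh : On v h) :
    On (g v) (g * h * g⁻¹) := by
  intro u hu
  have h1 : v <+: g⁻¹ u := by
    have := ht.inv.2 _ _ hu
    rwa [inv_ap] at this
  rw [mul_apply, mul_apply, hh _ h1, ap_inv]

theorem St.conj {n : ℕ} {g h : Equiv.Perm (List X)} (ht : IsTree g) (hh : St n h) :
    St n (g * h * g⁻¹) := by
  intro u hu
  rw [mul_apply, mul_apply, hh _ (by rw [ht.inv.1, hu]), ap_inv]

/-- commutation of elements supported on, respectively trivial on, a cone -/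
theorem Off.comm_on {v : List X} {g h : Equiv.Perm (List X)} (hg : Off v g) (hh : On v h)
    (ht : IsTree h) : g * h = h * g := by
  ext u : 1
  rw [mul_apply, mul_apply]
  by_cases hu : v <+: u
  · rw [hh u hu, hh _ (hg.pre hu)]
  · rw [hg u hu]
    apply hg
    intro h1
    apply hu
    have h2 : h v <+: h u := by rw [hh.fix]; exact h1
    exact ht.pre_iff.1 h2

theorem Off.on {v w : List X} {g : Equiv.Perm (List X)} (hg : Off v g) (h1 : ¬ v <+: w)
    (h2 : ¬ w <+: v) : On w g := by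
  intro u hu
  apply hg
  intro hv
  rcases List.prefix_or_prefix_of_prefix hu hv with h | h
  · exact h2 h
  · exact h1 h

theorem Off.eq_one {v w : List X} {g : Equiv.Perm (List X)} (hg : Off v g) (hg' : Off w g)
    (h1 : ¬ v <+: w) (h2 : ¬ w <+: v) : g = 1 := by
  ext u : 1
  rw [one_apply]
  by_cases hu : w <+: u
  · exact hg.on h1 h2 u hu
  · exact hg' u hu

theorem not_pre_of_ne {v w : List X} (hl : v.length = w.length) (h : v ≠ w) : ¬ v <+: w :=
  fun h' => h (h'.eq_of_length hl)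

theorem Off.comm {v w : List X} {g h : Equiv.Perm (List X)} (hg : Off v g) (hh : Off w h)
    (h1 : ¬ v <+: w) (h2 : ¬ w <+: v) (ht : IsTree h) : g * h = h * g :=
  hg.comm_on (hh.on h2 h1) ht

theorem exists_move {g : Equiv.Perm (List X)} (hg : g ≠ 1) : ∃ u, g u ≠ u := by
  by_contra h
  push Not at h
  exact hg (by ext u : 1; exact h u)

/-- a moved word has moved extensions of any larger length -/
theorem IsTree.move_ext {g : Equiv.Perm (List X)} (ht : IsTree g) {u w : List X} (h : u <+: w)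
    (hu : g u ≠ u) : g w ≠ w := fun hw => hu (ht.fix_pre h hw)

theorem exists_ext [Nonempty X] (u : List X) (n : ℕ) (hn : u.length ≤ n) :
    ∃ w : List X, u <+: w ∧ w.length = n := by
  obtain ⟨x⟩ := ‹Nonempty X›
  refine ⟨u ++ List.replicate (n - u.length) x, List.prefix_append _ _, ?_⟩
  rw [List.length_append, List.length_replicate]
  omega

theorem exists_take {u : List X} {n : ℕ} (hn : n ≤ u.length) :
    ∃ w : List X, w <+: u ∧ w.length = n :=
  ⟨u.take n, List.take_prefix _ _, by rw [List.length_take]; omega⟩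

/-- the group axioms for `Nice` groups of tree automorphisms -/
structure Nice (U : Subgroup (Equiv.Perm (List X))) : Prop where
  tree : ∀ g ∈ U, IsTree g
  split : ∀ g ∈ U, ∀ v : List X, St v.length g → ∃ h ∈ U, Off v h ∧ On v (h⁻¹ * g)
  trans : ∀ v u u' : List X, v <+: u → v <+: u' → u.length = u'.length →
    ∃ g ∈ U, Off v g ∧ g u = u'
  nonab : ∀ v : List X, ∃ r₁ ∈ U, ∃ r₂ ∈ U, ∃ r₃ ∈ U, ∃ r₄ ∈ U, Off v r₁ ∧ Off v r₂ ∧ Off v r₃ ∧
    Off v r₄ ∧ (r₁⁻¹ * r₂ * r₁ * r₂⁻¹) * (r₃⁻¹ * r₄ * r₃ * r₄⁻¹) ≠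
      (r₃⁻¹ * r₄ * r₃ * r₄⁻¹) * (r₁⁻¹ * r₂ * r₁ * r₂⁻¹)
  prim : ∀ (H : Subgroup (Equiv.Perm (List X))), H ≤ U → ∀ (w : List X) (J : Set X),
    (∀ x ∉ J, ∀ h ∈ H, h (w ++ [x]) = w ++ [x]) →
    (∀ x ∈ J, ∀ y ∈ J, ∃ h ∈ H, h (w ++ [x]) = w ++ [y]) →
    (∃ x ∈ J, ∃ y ∈ J, x ≠ y) → J = Set.univ

/-- the rigid stabiliser of `v` in `U` -/
def R (U : Subgroup (Equiv.Perm (List X))) (v : List X) : Subgroup (Equiv.Perm (List X)) where
  carrier := {g | g ∈ U ∧ Off v g}
  mul_mem' := fun ⟨h1, h2⟩ ⟨h3, h4⟩ => ⟨U.mul_mem h1 h3, h2.mul h4⟩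
  one_mem' := ⟨U.one_mem, Off.one v⟩
  inv_mem' := fun ⟨h1, h2⟩ => ⟨U.inv_mem h1, h2.inv⟩

theorem mem_R {U : Subgroup (Equiv.Perm (List X))} {v : List X} {g : Equiv.Perm (List X)} :
    g ∈ R U v ↔ g ∈ U ∧ Off v g := Iff.rfl

/-- the elements of the level stabiliser trivial on the cone of `v` -/
def Kv (U : Subgroup (Equiv.Perm (List X))) (v : List X) : Subgroup (Equiv.Perm (List X)) where
  carrier := {g | g ∈ U ∧ St v.length g ∧ On v g}
  mul_mem' := fun ⟨h1, h2, h3⟩ ⟨h4, h5, h6⟩ => ⟨U.mul_mem h1 h4, h2.mul h5, h3.mul h6⟩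
  one_mem' := ⟨U.one_mem, St.one _, On.one v⟩
  inv_mem' := fun ⟨h1, h2, h3⟩ => ⟨U.inv_mem h1, h2.inv, h3.inv⟩

theorem mem_Kv {U : Subgroup (Equiv.Perm (List X))} {v : List X} {g : Equiv.Perm (List X)} :
    g ∈ Kv U v ↔ g ∈ U ∧ St v.length g ∧ On v g := Iff.rfl

theorem R_mono {U : Subgroup (Equiv.Perm (List X))} {v v' : List X} (h : v' <+: v) :
    R U v ≤ R U v' := fun _ hg => ⟨hg.1, hg.2.mono h⟩

section nice

variable {U : Subgroup (Equiv.Perm (List X))} (hU : Nice U)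
include hU

theorem Nice.R_conj {v : List X} {g h : Equiv.Perm (List X)} (hg : g ∈ U) (hh : h ∈ R U v) :
    g * h * g⁻¹ ∈ R U (g v) :=
  ⟨U.mul_mem (U.mul_mem hg hh.1) (U.inv_mem hg), hh.2.conj (hU.tree g hg)⟩

theorem Nice.exists_ne [Nontrivial X] (v : List X) : ∃ r ∈ R U v, r ≠ 1 := by
  obtain ⟨x, y, hxy⟩ := exists_pair_ne X
  obtain ⟨g, hg, h1, h2⟩ := hU.trans v (v ++ [x]) (v ++ [y]) (List.prefix_append _ _)
    (List.prefix_append _ _) (by simp)
  refine ⟨g, ⟨hg, h1⟩, ?_⟩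
  rintro rfl
  rw [one_apply] at h2
  simp at h2
  exact hxy h2

/-- an element commuting with a rigid stabiliser is trivial on the cone -/
theorem Nice.on_of_comm [Nontrivial X] {w : List X} {b : Equiv.Perm (List X)} (hb : IsTree b)
    (h : ∀ r ∈ R U w, b * r = r * b) : On w b := by
  intro u hu
  by_contra hne
  obtain ⟨r, hr, hr1⟩ := hU.exists_ne u
  apply hr1
  have h1 := h r (R_mono hu hr)
  have h2 : b * r * b⁻¹ = r := by rw [h1]; group
  have h3 : Off (b u) r := by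
    have := hr.2.conj hb
    rwa [h2] at this
  exact hr.2.eq_one h3 (not_pre_of_ne (hb.1 u).symm (Ne.symm hne)) (not_pre_of_ne (hb.1 u) hne)

/-- two commuting normal subgroups of a rigid stabiliser: one of them is trivial -/
theorem Nice.no_comm [Nontrivial X] {w : List X} {N₁ N₂ : Subgroup (Equiv.Perm (List X))}
    (h1 : N₁ ≤ R U w) (h2 : N₂ ≤ R U w)
    (hn1 : ∀ r ∈ R U w, ∀ a ∈ N₁, r * a * r⁻¹ ∈ N₁)
    (hn2 : ∀ r ∈ R U w, ∀ a ∈ N₂, r * a * r⁻¹ ∈ N₂)
    (hc : ∀ a ∈ N₁, ∀ b ∈ N₂, a * b = b * a) {n₁ n₂ : Equiv.Perm (List X)} (hn₁ : n₁ ∈ N₁)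
    (hne₁ : n₁ ≠ 1) (hn₂ : n₂ ∈ N₂) : n₂ = 1 := by
  by_contra hne₂
  obtain ⟨u₁, hu₁⟩ := exists_move hne₁
  obtain ⟨u₂, hu₂⟩ := exists_move hne₂
  have t₁ := hU.tree _ (h1 hn₁).1
  have t₂ := hU.tree _ (h2 hn₂).1
  have w₁ : w <+: u₁ := by
    by_contra h
    exact hu₁ ((h1 hn₁).2 _ h)
  have w₂ : w <+: u₂ := by
    by_contra h
    exact hu₂ ((h2 hn₂).2 _ h)
  obtain ⟨p₁, hp₁, l₁⟩ := exists_ext u₁ (max u₁.length u₂.length) (le_max_left _ _)
  obtain ⟨p₂, hp₂, l₂⟩ := exists_ext u₂ (max u₁.length u₂.length) (le_max_right _ _)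
  have m₁ := t₁.move_ext hp₁ hu₁
  have m₂ := t₂.move_ext hp₂ hu₂
  obtain ⟨g, hg, hgo, hgp⟩ := hU.trans w p₂ p₁ (w₂.trans hp₂) (w₁.trans hp₁) (by rw [l₁, l₂])
  -- the conjugate of `n₂` moves `p₁`
  have hn₂' : g * n₂ * g⁻¹ ∈ N₂ := hn2 g ⟨hg, hgo⟩ n₂ hn₂
  have m₂' : (g * n₂ * g⁻¹) p₁ ≠ p₁ := by
    intro h
    apply m₂
    apply g.injective
    rw [mul_apply, mul_apply, ← hgp, inv_ap] at h
    rw [h]
  have key : ∀ (N : Subgroup (Equiv.Perm (List X))), N ≤ R U w →
      (∀ r ∈ R U w, ∀ a ∈ N, r * a * r⁻¹ ∈ N) → ∀ n ∈ N, n p₁ ≠ p₁ →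
      ∀ r ∈ R U p₁, ∀ r' ∈ R U p₁, r⁻¹ * r' * r * r'⁻¹ ∈ N := by
    intro N hN hnN n hn hnp r hr r' hr'
    have tn := hU.tree _ (hN hn).1
    have hpw : R U p₁ ≤ R U w := R_mono (w₁.trans hp₁)
    set y := n * r * n⁻¹ with hy
    have hyR : y ∈ R U (n p₁) := hU.R_conj (hN hn).1 hr
    -- `x = n r n⁻¹ r⁻¹`
    have hx : y * r⁻¹ ∈ N := by
      have e : y * r⁻¹ = n * (r * n⁻¹ * r⁻¹) := by rw [hy]; group
      rw [e]
      exact N.mul_mem hn (hnN r (hpw hr) _ (N.inv_mem hn))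
    have hcy : ∀ s ∈ R U p₁, y * s = s * y := fun s hs =>
      hyR.2.comm hs.2 (not_pre_of_ne (tn.1 _) hnp) (not_pre_of_ne (tn.1 _).symm (Ne.symm hnp))
        (hU.tree _ hs.1)
    have h3 : (y * r⁻¹) * (r' * (y * r⁻¹)⁻¹ * r'⁻¹) ∈ N :=
      N.mul_mem hx (hnN r' (hpw hr') _ (N.inv_mem hx))
    have h4 : y * (r⁻¹ * r' * r) = (r⁻¹ * r' * r) * y :=
      hcy _ ((R U p₁).mul_mem ((R U p₁).mul_mem ((R U p₁).inv_mem hr) hr') hr)
    have e : (y * r⁻¹) * (r' * (y * r⁻¹)⁻¹ * r'⁻¹) = r⁻¹ * r' * r * r'⁻¹ := by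
      calc (y * r⁻¹) * (r' * (y * r⁻¹)⁻¹ * r'⁻¹) = (y * (r⁻¹ * r' * r)) * y⁻¹ * r'⁻¹ := by group
        _ = _ := by rw [h4]; group
    rwa [e] at h3
  obtain ⟨r₁, k₁, r₂, k₂, r₃, k₃, r₄, k₄, o₁, o₂, o₃, o₄, hne⟩ := hU.nonab p₁
  exact hne (hc _ (key N₁ h1 hn1 n₁ hn₁ m₁ r₁ ⟨k₁, o₁⟩ r₂ ⟨k₂, o₂⟩) _
    (key N₂ h2 hn2 _ hn₂' m₂' r₃ ⟨k₃, o₃⟩ r₄ ⟨k₄, o₄⟩))

end nice

end Pool.Agent.H335.BR
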