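import Pool.Agent.H335.BR.Port

/-!
# The groups `U lam` satisfy the axioms
-/

set_option autoImplicit false

namespace Pool.Agent.H335.BR

open Equiv.Perm

theorem St.label {φ : List A → L} {n : ℕ} (h : St n (act φ)) {p : List A} (hp : p.length < n) :
    φ p = 1 := by
  apply label_one
  intro x
  exact St.mono (act_tree φ |> fun _ => by simpa using hp : (p ++ [x]).length ≤ n) (act_tree φ) h _ rfl

/-- the portrait restricted to the cone of `v` -/
noncomputable def cutP (v : List A) (φ : List A → L) (u : List A) : L :=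
  open Classical in if v <+: u then φ u else 1

theorem cutP_of {v u : List A} {φ : List A → L} (h : v <+: u) : cutP v φ u = φ u := if_pos h
theorem cutP_not {v u : List A} {φ : List A → L} (h : ¬ v <+: u) : cutP v φ u = 1 := if_neg h

theorem cutP_eq {v u : List A} {φ : List A → L} (hs : St v.length (act φ)) (h : v <+: u)
    {i : ℕ} (hi : i < u.length) : φ (u.take i) = cutP v φ (u.take i) := by
  by_cases h1 : v <+: u.take i
  · rw [cutP_of h1]
  · rw [cutP_not h1]
    apply hs.label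
    by_contra h2
    apply h1
    exact pre_of_le h (List.take_prefix _ _) (by omega)

theorem cond_cutP {lam : ℕ → Bool} {v : List A} {φ : List A → L} (hφ : Cond lam φ)
    (hs : St v.length (act φ)) : Cond lam (cutP v φ) := by
  intro p
  by_cases hp : v <+: p
  · rw [cutP_of hp, hφ]
    unfold val
    refine Finset.prod_congr rfl fun i hi => ?_
    rw [cutP_eq hs hp (Finset.mem_range.1 hi)]
  · rw [cutP_not hp, map_one, val_eq_one]
    intro i _
    rw [cutP_not fun h => hp (h.trans (List.take_prefix _ _)), map_one]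

theorem cutP_off (v : List A) (φ : List A → L) : Off v (act (cutP v φ)) := by
  intro u hu
  apply act_fix
  intro i _
  exact cutP_not fun h => hu (h.trans (List.take_prefix _ _))

theorem split_U (lam : ℕ → Bool) {g : Equiv.Perm (List A)} (hg : g ∈ U lam) (v : List A)
    (hs : St v.length g) : ∃ h ∈ U lam, Off v h ∧ On v (h⁻¹ * g) := by
  obtain ⟨φ, hφ, rfl⟩ := hg
  refine ⟨act (cutP v φ), ⟨_, cond_cutP hφ hs, rfl⟩, cutP_off v φ, fun u hu => ?_⟩
  rw [mul_apply, act_congr (ψ := cutP v φ) fun i hi => cutP_eq hs hu hi, inv_ap]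

theorem exists_even (i j : Fin 3) : ∃ a : Equiv.Perm (Fin 3), a i = j ∧ sign a = 1 := by
  revert i j
  decide

theorem exists_label (x y : A) : ∃ l : L, rho l x = y ∧ eps l = 1 := by
  obtain ⟨a, h1, h2⟩ := exists_even x.1 y.1
  refine ⟨(a, Equiv.swap x.2 y.2), ?_, ?_⟩
  · rw [rho_apply]
    simp only [Equiv.swap_apply_left, h1]
  · exact h2

theorem trans_aux' (lam : ℕ → Bool) (q : List A) : ∀ (q' : List A), q.length = q'.length →
    ∀ v, ∃ g ∈ U lam, Off v g ∧ g (v ++ q) = v ++ q' := by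
  induction hn : q.length generalizing q with
  | zero =>
    intro q' hl v
    rw [List.length_eq_zero_iff.1 hn, List.length_eq_zero_iff.1 (hl.symm)]
    exact ⟨1, (U lam).one_mem, Off.one v, rfl⟩
  | succ n ih =>
    intro q' hl v
    match q, q', hn, hl with
    | x :: q, y :: q', hn, hl =>
      simp only [List.length_cons, Nat.add_right_cancel_iff] at hn hl
      obtain ⟨l, h1, h2⟩ := exists_label x y
      have h3 := spin_child lam v l x
      rw [h1] at h3
      have h4 : v ++ [y] <+: spin lam v l (v ++ (x :: q)) := by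
        rw [← h3]
        exact (act_tree _).2 _ _ ⟨q, by simp⟩
      obtain ⟨q1, hq1⟩ := h4
      have h5 : q1.length = n := by
        have := congrArg List.length hq1
        rw [spin, act_length] at this
        simp at this
        omega
      obtain ⟨g, hg, hg1, hg2⟩ := ih q1 h5 q' hl (v ++ [y])
      refine ⟨g * spin lam v l, (U lam).mul_mem hg (spin_mem lam v h2),
        (hg1.mono (List.prefix_append _ _)).mul (spin_off lam v l), ?_⟩
      rw [mul_apply, ← hq1, hg2]
      simp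

theorem trans_U (lam : ℕ → Bool) (v u u' : List A) (h : v <+: u) (h' : v <+: u')
    (hl : u.length = u'.length) : ∃ g ∈ U lam, Off v g ∧ g u = u' := by
  obtain ⟨q, rfl⟩ := h
  obtain ⟨q', rfl⟩ := h'
  exact trans_aux' lam q q' (by simpa using hl) v

theorem spin_inv_child (lam : ℕ → Bool) (v : List A) (l : L) (x : A) :
    (spin lam v l)⁻¹ (v ++ [x]) = v ++ [rho l⁻¹ x] := by
  have := spin_child lam v l (rho l⁻¹ x)
  rw [rho_inv_apply] at this
  rw [← this, inv_ap]

theorem eps_snd (s : Equiv.Perm (Fin 4)) : eps (1, s) = 1 := by simp [eps]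

theorem nonab_U (lam : ℕ → Bool) (v : List A) : ∃ r₁ ∈ U lam, ∃ r₂ ∈ U lam, ∃ r₃ ∈ U lam,
    ∃ r₄ ∈ U lam, Off v r₁ ∧ Off v r₂ ∧ Off v r₃ ∧
    Off v r₄ ∧ (r₁⁻¹ * r₂ * r₁ * r₂⁻¹) * (r₃⁻¹ * r₄ * r₃ * r₄⁻¹) ≠
      (r₃⁻¹ * r₄ * r₃ * r₄⁻¹) * (r₁⁻¹ * r₂ * r₁ * r₂⁻¹) := by
  refine ⟨spin lam v (1, Equiv.swap 0 1), spin_mem _ _ (eps_snd _),
    spin lam v (1, Equiv.swap 1 2), spin_mem _ _ (eps_snd _),
    spin lam v (1, Equiv.swap 1 2), spin_mem _ _ (eps_snd _),
    spin lam v (1, Equiv.swap 2 3), spin_mem _ _ (eps_snd _), spin_off _ _ _, spin_off _ _ _,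
    spin_off _ _ _, spin_off _ _ _, fun h => ?_⟩
  have h1 := DFunLike.congr_fun h (v ++ [((0 : Fin 3), (0 : Fin 4))])
  simp only [mul_apply, spin_child, spin_inv_child] at h1
  have h2 := (List.append_inj' h1 rfl).2
  simp only [List.cons.injEq, and_true] at h2
  revert h2
  decide

theorem prim_U (lam : ℕ → Bool) (H : Subgroup (Equiv.Perm (List A))) (hH : H ≤ U lam)
    (w : List A) (J : Set A) (h1 : ∀ x ∉ J, ∀ h ∈ H, h (w ++ [x]) = w ++ [x])
    (h2 : ∀ x ∈ J, ∀ y ∈ J, ∃ h ∈ H, h (w ++ [x]) = w ++ [y])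
    (h3 : ∃ x ∈ J, ∃ y ∈ J, x ≠ y) : J = Set.univ := by
  by_contra hJ
  obtain ⟨x0, hx0⟩ : ∃ x0, x0 ∉ J := by
    by_contra h
    push Not at h
    exact hJ (Set.eq_univ_of_forall h)
  obtain ⟨x, hx, y, hy, hxy⟩ := h3
  -- the elements of `H` act on the children through labels
  have h4 : ∀ h ∈ H, ∃ l : L, (∀ z, h (w ++ [z]) = w ++ [rho l z]) ∧ rho l x0 = x0 ∧
      ∀ z ∉ J, rho l z = z := by
    intro h hh
    obtain ⟨φ, hφ, rfl⟩ := hH hh
    have hw : act φ w = w := (act_tree φ).fix_pre (List.prefix_append _ _) (h1 x0 hx0 _ hh)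
    have h5 : ∀ z, act φ (w ++ [z]) = w ++ [rho (φ w) z] := fun z => by rw [act_snoc, hw]
    have h6 : ∀ z ∉ J, rho (φ w) z = z := by
      intro z hz
      have := h1 z hz _ hh
      rw [h5] at this
      simpa using this
    exact ⟨φ w, h5, h6 x0 hx0, h6⟩
  have h5 : ∀ x ∈ J, ∀ y ∈ J, ∃ l : L, rho l x = y ∧ rho l x0 = x0 ∧ ∀ z ∉ J, rho l z = z := by
    intro x hx y hy
    obtain ⟨h, hh, hxy⟩ := h2 x hx y hy
    obtain ⟨l, ha, hb, hc⟩ := h4 h hh
    refine ⟨l, ?_, hb, hc⟩
    rw [ha] at hxy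
    simpa using hxy
  obtain ⟨l, hl, hl0, hlJ⟩ := h5 x hx y hy
  by_cases hc : x.1 = y.1
  · have hc2 : x.2 ≠ y.2 := fun h => hxy (Prod.ext hc h)
    have h6 : ∀ c : Fin 3, (c, x.2) ∈ J := by
      intro c
      by_contra hcJ
      have := hlJ _ hcJ
      rw [rho_apply] at this
      have h7 := congrArg Prod.snd this
      simp only at h7
      have h8 := congrArg Prod.snd hl
      rw [rho_apply] at h8
      simp only at h8
      exact hc2 (h7.symm.trans h8)
    obtain ⟨c, hc0⟩ := exists_ne x0.1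
    obtain ⟨l', h7, h8, -⟩ := h5 _ (h6 x0.1) _ (h6 c)
    have h9 := congrArg Prod.fst h7
    have h10 := congrArg Prod.fst h8
    rw [rho_apply] at h9 h10
    simp only at h9 h10
    exact hc0 (h9.symm.trans h10)
  · have h6 : ∀ c : Fin 4, (x.1, c) ∈ J := by
      intro c
      by_contra hcJ
      have := hlJ _ hcJ
      rw [rho_apply] at this
      have h7 := congrArg Prod.fst this
      simp only at h7
      have h8 := congrArg Prod.fst hl
      rw [rho_apply] at h8
      simp only at h8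
      exact hc (h7.symm.trans h8)
    obtain ⟨c, hc0⟩ := exists_ne x0.2
    obtain ⟨l', h7, h8, -⟩ := h5 _ (h6 x0.2) _ (h6 c)
    have h9 := congrArg Prod.snd h7
    have h10 := congrArg Prod.snd h8
    rw [rho_apply] at h9 h10
    simp only at h9 h10
    exact hc0 (h9.symm.trans h10)

theorem tree_U {lam : ℕ → Bool} {g : Equiv.Perm (List A)} (hg : g ∈ U lam) : IsTree g := by
  obtain ⟨φ, -, rfl⟩ := hg
  exact act_tree φ

theorem nice_U (lam : ℕ → Bool) : Nice (U lam) where
  tree := fun _ hg => tree_U hg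
  split := fun _ hg v hs => split_U lam hg v hs
  trans := trans_U lam
  nonab := nonab_U lam
  prim := prim_U lam

end Pool.Agent.H335.BR
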