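import Pool.Agent.H335.BR.WordTree
import Pool.Agent.H335.BR.NiceU

/-!
# The groups `U lam` are profinite branch groups
-/

set_option autoImplicit false

namespace Pool.Agent.H335.BR

open Topology Filter

section nice

variable {X : Type} {U : Subgroup (Equiv.Perm (List X))} (hU : Nice U)
include hU

theorem Nice.transT (u v : Words X) (h : level u = level v) : ∃ g ∈ UT U, g u = v := by
  rw [level_words, level_words] at h
  obtain ⟨g, hg, -, hg2⟩ := hU.trans [] (toL u) (toL v) List.nil_prefix List.nil_prefix h
  exact ⟨ofP g (hU.tree g hg), hg, hg2⟩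

theorem Nice.gen [Nonempty X] (n : ℕ) (F : Finset (List X)) : ∀ g : AutT (Words X), g ∈ UT U →
    g ∈ StT n → (∀ v, v.length = n → v ∉ F → On v (toP g)) → g ∈ ristLevel (UT U) n := by
  classical
  induction F using Finset.induction_on with
  | empty =>
    intro g _ hs ho
    have : g = 1 := by
      apply toP_inj
      refine Equiv.ext fun w => ?_
      rcases le_or_gt n w.length with h | h
      · obtain ⟨v, hv, hl⟩ := exists_take h
        exact ho v hl (Finset.notMem_empty _) w hv
      · exact St.mono h.le (toP_tree g) hs w rfl
    rw [this]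
    exact Subgroup.one_mem _
  | insert v F _ ih =>
    intro g hg hs ho
    by_cases hl : v.length = n
    · subst hl
      obtain ⟨h, hh, hoff, hon⟩ := hU.split (toP g) hg v hs
      have ht := hU.tree h hh
      have h1 : g = ofP h ht * ((ofP h ht)⁻¹ * g) := by group
      rw [h1]
      refine Subgroup.mul_mem _ (Subgroup.subset_closure ⟨ofL v, level_words _, hh, hoff⟩)
        (ih _ ?_ ?_ ?_)
      · exact (UT U).mul_mem ((UT U).inv_mem hh) hg
      · refine (StT _).mul_mem ((StT _).inv_mem ?_) hs
        exact hoff.st ht le_rfl
      · intro v' hl' hv'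
        have e : toP ((ofP h ht)⁻¹ * g) = h⁻¹ * toP g := by rw [map_mul, map_inv, toP_ofP]
        rw [e]
        by_cases hvv : v' = v
        · rw [hvv]; exact hon
        · have h2 : On v' (toP g) := ho v' hl' (by
            rw [Finset.mem_insert]; push Not; exact ⟨hvv, hv'⟩)
          have h3 : On v' h := hoff.on (not_pre_of_ne hl'.symm (Ne.symm hvv))
            (not_pre_of_ne hl' hvv)
          exact h3.inv.mul h2
    · refine ih g hg hs fun v' hl' hv' => ho v' hl' ?_
      rw [Finset.mem_insert]
      push Not
      exact ⟨fun h => hl (h ▸ hl'), hv'⟩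

theorem Nice.branchT [Finite X] [Nonempty X] (n : ℕ) :
    (ristLevel (UT U) n).relIndex (UT U) ≠ 0 := by
  classical
  have hfin : Set.Finite {w : List X | w.length = n} := List.finite_length_eq X n
  have h1 : (StT n).subgroupOf (UT U) ≤ (ristLevel (UT U) n).subgroupOf (UT U) := by
    intro g hg
    rw [Subgroup.mem_subgroupOf] at hg ⊢
    refine hU.gen n hfin.toFinset g.1 g.2 hg fun v hl hv => ?_
    exact absurd (hfin.mem_toFinset.2 hl) hv
  have h2 : ((ristLevel (UT U) n).subgroupOf (UT U)).FiniteIndex :=
    Subgroup.finiteIndex_of_le h1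
  exact h2.index_ne_zero

end nice

/-! ### Compactness -/

/-- the discrete topology on the labels -/
@[instance_reducible]
def topL : TopologicalSpace L := ⊥

attribute [local instance] topL

theorem discL : DiscreteTopology L := ⟨rfl⟩

attribute [local instance] discL

/-- the tree automorphism with portrait `φ` -/
def actT (φ : List A → L) : AutT (Words A) := ofP (act φ) (act_tree φ)

theorem continuous_actT : Continuous actT := by
  refine continuous_of_ev fun v w => ?_
  rw [isOpen_iff_mem_nhds]
  intro φ hφ
  have h1 : ⋂ i ∈ Finset.range (toL v).length,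
      {ψ : List A → L | ψ ((toL v).take i) = φ ((toL v).take i)} ∈ 𝓝 φ := by
    rw [Filter.biInter_finset_mem]
    intro i _
    have h2 : Continuous (fun ψ : List A → L => ψ ((toL v).take i)) := continuous_apply _
    exact (isOpen_discrete ({φ ((toL v).take i)} : Set L)).preimage h2 |>.mem_nhds rfl
  refine mem_of_superset h1 fun ψ hψ => ?_
  have h3 : act ψ (toL v) = act φ (toL v) := act_congr fun i hi => by
    have := Set.mem_iInter₂.1 hψ i (Finset.mem_range.2 hi)
    exact this
  exact h3.trans hφ

theorem isClosed_cond (lam : ℕ → Bool) : IsClosed {φ : List A → L | Cond lam φ} := by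
  have : {φ : List A → L | Cond lam φ} = ⋂ v : List A, {φ | eps (φ v) = val lam φ v} := by
    ext φ
    rw [Set.mem_iInter]
    rfl
  rw [this]
  refine isClosed_iInter fun v => isClosed_eq ?_ ?_
  · exact (continuous_of_discreteTopology (f := fun l : L => eps l)).comp (continuous_apply v)
  · unfold val
    refine continuous_finsetProd _ fun i _ => ?_
    split_ifs
    · exact (continuous_of_discreteTopology (f := fun l : L => chi l)).comp (continuous_apply _)
    · exact continuous_const

theorem UT_eq (lam : ℕ → Bool) : (UT (U lam) : Set (AutT (Words A))) =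
    actT '' {φ | Cond lam φ} := by
  ext g
  constructor
  · rintro ⟨φ, hφ, h⟩
    exact ⟨φ, hφ, toP_inj h⟩
  · rintro ⟨φ, hφ, rfl⟩
    exact ⟨φ, hφ, rfl⟩

theorem isCompact_UT (lam : ℕ → Bool) : IsCompact (UT (U lam) : Set (AutT (Words A))) := by
  rw [UT_eq]
  exact (isClosed_cond lam).isCompact.image continuous_actT

theorem isProfiniteBranch_U (lam : ℕ → Bool) : IsProfiniteBranch (UT (U lam)) where
  closed := (isCompact_UT lam).isClosed
  transitive := (nice_U lam).transT
  branch := fun n _ => (nice_U lam).branchT n

theorem tree_A : IsSphericalTree (Words A) := tree_words (by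
  rw [Nat.card_eq_fintype_card]
  decide)

/-- the profinite branch group attached to `lam` -/
def grp (lam : ℕ → Bool) : BranchGroup where
  V := Words A
  order := inferInstance
  tree := tree_A
  U := UT (U lam)
  isBranch := isProfiniteBranch_U lam

end Pool.Agent.H335.BR
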