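import Mathlib

/-!
# Profinite branch groups, expansive embeddability, commensurability: definitions

A rooted tree is given by its set of vertices `V`, ordered by the relation `u ≤ v`: `u` is an
ancestor of `v` or equal to `v`.
-/

set_option autoImplicit false

namespace Pool.Agent.H335.BR

/-- The level of a vertex: the number of its strict ancestors. -/
noncomputable def level {V : Type} [PartialOrder V] (v : V) : ℕ := (Set.Iio v).ncard

/-- `V` (ordered by being an ancestor) is the set of vertices of a locally finite, spherically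
homogeneous rooted tree in which every vertex has at least two children: there is a root, the
ancestors of a vertex form a finite chain, every vertex has finitely many and at least two
children, and the number of children of a vertex depends only on its level. -/
structure IsSphericalTree (V : Type) [PartialOrder V] : Prop where
  root : ∃ r : V, ∀ v : V, r ≤ v
  finite_ancestors : ∀ v : V, (Set.Iic v).Finite
  chain_ancestors : ∀ v : V, IsChain (fun a b => a ≤ b) (Set.Iic v)
  finite_children : ∀ v : V, {w : V | v ⋖ w}.Finite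
  two_children : ∀ v : V, 2 ≤ {w : V | v ⋖ w}.ncard
  homogeneous : ∀ u v : V, level u = level v → {w : V | u ⋖ w}.ncard = {w : V | v ⋖ w}.ncard

/-- The group of automorphisms of the rooted tree `V`. -/
abbrev AutT (V : Type) [PartialOrder V] : Type := V ≃o V

/-- The topology of pointwise convergence on `V` discrete (the profinite topology). -/
instance topAutT (V : Type) [PartialOrder V] : TopologicalSpace (AutT V) :=
  TopologicalSpace.induced (fun (g : AutT V) (v : V) => g v)
    (@Pi.topologicalSpace V (fun _ => V) (fun _ => ⊥))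

/-- The rigid stabiliser of the vertex `v` in `U`: the elements of `U` fixing every vertex outside
the subtree rooted at `v`. -/
def rist {V : Type} [PartialOrder V] (U : Subgroup (AutT V)) (v : V) : Subgroup (AutT V) where
  carrier := {g | g ∈ U ∧ ∀ u : V, ¬ v ≤ u → g u = u}
  mul_mem' := by
    rintro a b ⟨ha, ha'⟩ ⟨hb, hb'⟩
    exact ⟨U.mul_mem ha hb, fun u hu => by
      show a (b u) = u
      rw [hb' u hu, ha' u hu]⟩
  one_mem' := ⟨U.one_mem, fun _ _ => rfl⟩
  inv_mem' := by
    rintro a ⟨ha, ha'⟩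
    refine ⟨U.inv_mem ha, fun u hu => ?_⟩
    conv_lhs => rw [← ha' u hu]
    exact a.symm_apply_apply u

/-- The rigid stabiliser of level `n`: the subgroup generated by the rigid stabilisers of the
vertices of level `n`. -/
def ristLevel {V : Type} [PartialOrder V] (U : Subgroup (AutT V)) (n : ℕ) : Subgroup (AutT V) :=
  Subgroup.closure {g | ∃ v : V, level v = n ∧ g ∈ rist U v}

/-- `U` is a profinite branch group: it is closed, transitive on the levels, and the rigid
stabilisers of the levels have finite index in it. -/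
structure IsProfiniteBranch {V : Type} [PartialOrder V] (U : Subgroup (AutT V)) : Prop where
  closed : IsClosed (U : Set (AutT V))
  transitive : ∀ u v : V, level u = level v → ∃ g ∈ U, g u = v
  branch : ∀ n : ℕ, 1 ≤ n → (ristLevel U n).relIndex U ≠ 0

/-- A profinite branch group, with the tree on which it acts. -/
structure BranchGroup where
  V : Type
  order : PartialOrder V
  tree : IsSphericalTree V
  U : Subgroup (AutT V)
  isBranch : IsProfiniteBranch U

/-- `G` is a t.d.l.c. group. -/
structure IsTDLC (G : Type) [Group G] [TopologicalSpace G] : Prop where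
  isTopologicalGroup : IsTopologicalGroup G
  t2 : T2Space G
  totallyDisconnected : TotallyDisconnectedSpace G
  locallyCompact : LocallyCompactSpace G

/-- Some compact subset generates `G`. -/
def IsCompactlyGeneratedGroup (G : Type) [Group G] [TopologicalSpace G] : Prop :=
  ∃ K : Set G, IsCompact K ∧ Subgroup.closure K = ⊤

/-- `G` is expansive: some compact open subgroup has trivial intersection of its conjugates. -/
def IsExpansive (G : Type) [Group G] [TopologicalSpace G] : Prop :=
  ∃ V : Subgroup G, IsCompact (V : Set G) ∧ IsOpen (V : Set G) ∧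
    ∀ x : G, (∀ g : G, g⁻¹ * x * g ∈ V) → x = 1

/-- `U` is isomorphic, as a topological group, to an open subgroup of some compactly generated
expansive t.d.l.c. group. -/
def ExpansivelyEmbeddable (U : Type) [Group U] [TopologicalSpace U] : Prop :=
  ∃ (G : Type) (_ : Group G) (_ : TopologicalSpace G), IsTDLC G ∧ IsCompactlyGeneratedGroup G ∧
    IsExpansive G ∧ ∃ W : Subgroup G, IsOpen (W : Set G) ∧ Nonempty (U ≃ₜ* W)

/-- `A` and `B` are commensurable: an open subgroup of `A` is isomorphic, as a topological group,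
to an open subgroup of `B`. -/
def AreCommensurable (A B : Type) [Group A] [TopologicalSpace A] [Group B] [TopologicalSpace B] :
    Prop :=
  ∃ (P : Subgroup A) (Q : Subgroup B), IsOpen (P : Set A) ∧ IsOpen (Q : Set B) ∧
    Nonempty (P ≃ₜ* Q)

section comm

variable {A B C : Type} [Group A] [TopologicalSpace A] [Group B] [TopologicalSpace B]
  [Group C] [TopologicalSpace C]

theorem AreCommensurable.refl (A : Type) [Group A] [TopologicalSpace A] :
    AreCommensurable A A :=
  ⟨⊤, ⊤, isOpen_univ, isOpen_univ, ⟨ContinuousMulEquiv.refl _⟩⟩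

theorem AreCommensurable.symm (h : AreCommensurable A B) : AreCommensurable B A := by
  obtain ⟨P, Q, hP, hQ, ⟨e⟩⟩ := h
  exact ⟨Q, P, hQ, hP, ⟨e.symm⟩⟩

theorem AreCommensurable.trans (h : AreCommensurable A B) (h' : AreCommensurable B C) :
    AreCommensurable A C := by
  obtain ⟨P, Q, hP, hQ, ⟨e⟩⟩ := h
  obtain ⟨Q', S, hQ', hS, ⟨e'⟩⟩ := h'
  -- the part of `P` mapped into `Q'`, and its image in `S`
  let P1 : Subgroup A := (Q'.comap (Q.subtype.comp e.toMulEquiv.toMonoidHom)).map P.subtype
  let S1 : Subgroup C := (Q.comap (Q'.subtype.comp e'.symm.toMulEquiv.toMonoidHom)).map S.subtype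
  have mP : ∀ {a : A}, a ∈ P1 ↔ ∃ h : a ∈ P, ((e ⟨a, h⟩ : Q) : B) ∈ Q' := by
    intro a
    constructor
    · rintro ⟨⟨x, hx⟩, hx', rfl⟩
      exact ⟨hx, hx'⟩
    · rintro ⟨h, h'⟩
      exact ⟨⟨a, h⟩, h', rfl⟩
  have mS : ∀ {c : C}, c ∈ S1 ↔ ∃ h : c ∈ S, ((e'.symm ⟨c, h⟩ : Q') : B) ∈ Q := by
    intro a
    constructor
    · rintro ⟨⟨x, hx⟩, hx', rfl⟩
      exact ⟨hx, hx'⟩
    · rintro ⟨h, h'⟩
      exact ⟨⟨a, h⟩, h', rfl⟩
  have oP : IsOpen (P1 : Set A) := by
    have : (P1 : Set A) = Subtype.val '' ((fun x : P => ((e x : Q) : B)) ⁻¹' (Q' : Set B)) := by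
      ext a
      rw [SetLike.mem_coe, mP]
      constructor
      · rintro ⟨h, h'⟩
        exact ⟨⟨a, h⟩, h', rfl⟩
      · rintro ⟨⟨x, hx⟩, hx', rfl⟩
        exact ⟨hx, hx'⟩
    rw [this]
    exact hP.isOpenMap_subtype_val _
      (hQ'.preimage (continuous_subtype_val.comp e.continuous_toFun))
  have oS : IsOpen (S1 : Set C) := by
    have : (S1 : Set C) = Subtype.val '' ((fun x : S => ((e'.symm x : Q') : B)) ⁻¹' (Q : Set B)) := by
      ext a
      rw [SetLike.mem_coe, mS]
      constructor
      · rintro ⟨h, h'⟩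
        exact ⟨⟨a, h⟩, h', rfl⟩
      · rintro ⟨⟨x, hx⟩, hx', rfl⟩
        exact ⟨hx, hx'⟩
    rw [this]
    exact hS.isOpenMap_subtype_val _
      (hQ.preimage (continuous_subtype_val.comp e'.symm.continuous_toFun))
  have f1 : ∀ x : P1, (x : A) ∈ P := fun x => (mP.1 x.2).1
  have f2 : ∀ x : P1, ((e ⟨x, f1 x⟩ : Q) : B) ∈ Q' := fun x => (mP.1 x.2).2
  have f3 : ∀ x : P1, ((e' ⟨_, f2 x⟩ : S) : C) ∈ S1 := fun x => by
    rw [mS]
    refine ⟨(e' ⟨_, f2 x⟩).2, ?_⟩
    have : e'.symm ⟨((e' ⟨_, f2 x⟩ : S) : C), (e' ⟨_, f2 x⟩).2⟩ = ⟨_, f2 x⟩ :=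
      e'.symm_apply_apply _
    rw [this]
    exact (e ⟨x, f1 x⟩).2
  have g1 : ∀ x : S1, (x : C) ∈ S := fun x => (mS.1 x.2).1
  have g2 : ∀ x : S1, ((e'.symm ⟨x, g1 x⟩ : Q') : B) ∈ Q := fun x => (mS.1 x.2).2
  have g3 : ∀ x : S1, ((e.symm ⟨_, g2 x⟩ : P) : A) ∈ P1 := fun x => by
    rw [mP]
    refine ⟨(e.symm ⟨_, g2 x⟩).2, ?_⟩
    have : e ⟨((e.symm ⟨_, g2 x⟩ : P) : A), (e.symm ⟨_, g2 x⟩).2⟩ = ⟨_, g2 x⟩ :=
      e.apply_symm_apply _
    rw [this]
    exact (e'.symm ⟨x, g1 x⟩).2
  refine ⟨P1, S1, oP, oS, ⟨{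
    toFun := fun x => ⟨_, f3 x⟩
    invFun := fun x => ⟨_, g3 x⟩
    left_inv := fun x => ?_
    right_inv := fun x => ?_
    map_mul' := fun x y => ?_
    continuous_toFun := ?_
    continuous_invFun := ?_ }⟩⟩
  · apply Subtype.ext
    have h1 : (⟨((e'.symm ⟨_, g1 ⟨_, f3 x⟩⟩ : Q') : B), g2 ⟨_, f3 x⟩⟩ : Q) = e ⟨x, f1 x⟩ := by
      apply Subtype.ext
      have h2 := congrArg (fun q : Q' => (q : B)) (e'.symm_apply_apply ⟨_, f2 x⟩)
      exact h2
    show ((e.symm ⟨_, g2 ⟨_, f3 x⟩⟩ : P) : A) = x
    rw [h1]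
    exact congrArg Subtype.val (e.symm_apply_apply _)
  · apply Subtype.ext
    have h1 : (⟨((e ⟨_, f1 ⟨_, g3 x⟩⟩ : Q) : B), f2 ⟨_, g3 x⟩⟩ : Q') = e'.symm ⟨x, g1 x⟩ := by
      apply Subtype.ext
      have h2 := congrArg (fun q : Q => (q : B)) (e.apply_symm_apply ⟨_, g2 x⟩)
      exact h2
    show ((e' ⟨_, f2 ⟨_, g3 x⟩⟩ : S) : C) = x
    rw [h1]
    exact congrArg Subtype.val (e'.apply_symm_apply _)
  · apply Subtype.ext
    have h1 : (⟨_, f2 (x * y)⟩ : Q') = ⟨_, f2 x⟩ * ⟨_, f2 y⟩ := by
      apply Subtype.ext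
      have : (⟨((x * y : P1) : A), f1 (x * y)⟩ : P) = ⟨x, f1 x⟩ * ⟨y, f1 y⟩ := rfl
      show ((e ⟨((x * y : P1) : A), f1 (x * y)⟩ : Q) : B) = _
      rw [this, map_mul]
      rfl
    show ((e' ⟨_, f2 (x * y)⟩ : S) : C) = _
    rw [h1, map_mul]
    rfl
  · refine Continuous.subtype_mk (continuous_subtype_val.comp (e'.continuous_toFun.comp ?_)) _
    refine Continuous.subtype_mk (continuous_subtype_val.comp (e.continuous_toFun.comp ?_)) _
    exact Continuous.subtype_mk continuous_subtype_val _
  · refine Continuous.subtype_mk (continuous_subtype_val.comp (e.symm.continuous_toFun.comp ?_)) _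
    refine Continuous.subtype_mk
      (continuous_subtype_val.comp (e'.symm.continuous_toFun.comp ?_)) _
    exact Continuous.subtype_mk continuous_subtype_val _

end comm

/-- Commensurability, as an equivalence relation between profinite branch groups. -/
def commensurability : Setoid BranchGroup where
  r G H := letI := G.order; letI := H.order; AreCommensurable G.U H.U
  iseqv := {
    refl := fun G => letI := G.order; AreCommensurable.refl G.U
    symm := fun h => AreCommensurable.symm h
    trans := fun h h' => AreCommensurable.trans h h' }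

end Pool.Agent.H335.BR
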