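import Pool.Agent.H335.BR.Rigid

/-!
# The induced isomorphism of trees
-/

set_option autoImplicit false

namespace Pool.Agent.H335.BR

open Equiv.Perm

variable {X : Type} {U U' : Subgroup (Equiv.Perm (List X))}
  {Γ : Subgroup (Equiv.Perm (List X) × Equiv.Perm (List X))}
  [Nontrivial X] [Finite X] (hU : Nice U) (hU' : Nice U') (hc : Corr U U' Γ)

omit [Nontrivial X] [Finite X] in
theorem snoc_ne {w : List X} {x y : X} (h : x ≠ y) : w ++ [x] ≠ w ++ [y] := by
  intro h'
  apply h
  simpa using h'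

omit [Nontrivial X] [Finite X] in
theorem snoc_inc {w : List X} {x y : X} (h : x ≠ y) : ¬ w ++ [x] <+: w ++ [y] :=
  not_pre_of_ne (by simp) (snoc_ne h)

omit [Nontrivial X] [Finite X] in
/-- words below different children are incomparable -/
theorem inc_below {w p q : List X} {x y : X} (h : x ≠ y) (hp : w ++ [x] <+: p)
    (hq : w ++ [y] <+: q) : ¬ p <+: q := by
  intro hpq
  exact snoc_ne h (pre_eq (hp.trans hpq) hq (by simp))

include hU hU' hc in
/-- The child of a top vertex is strictly below. -/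
theorem Top.lt {v w : List X} (hv : Dom U Γ v.length) (h : Top U Γ v w) {x : X} {w1 : List X}
    (h1 : Top U Γ (v ++ [x]) w1) : w <+: w1 ∧ w ≠ w1 := by
  have hX : Nonempty X := inferInstance
  have hle : ∀ x, img Γ (R U (v ++ [x])) ≤ img Γ (R U v) := by
    rintro x s ⟨a, ha, has⟩
    exact ⟨a, R_mono (List.prefix_append _ _) ha, has⟩
  have hd1 : ∀ x, Dom U Γ (v ++ [x]).length := fun x => hv.mono hU (by simp)
  have h2 : w <+: w1 := h1.2 w fun s hs => h.1 s (hle x hs)
  refine ⟨h2, ?_⟩
  rintro rfl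
  obtain ⟨x', hx'⟩ := exists_ne x
  obtain ⟨g, hg, hgo, hgx⟩ := hU.trans v (v ++ [x]) (v ++ [x']) (List.prefix_append _ _)
    (List.prefix_append _ _) (by simp)
  obtain ⟨s, hs, hgs⟩ := dom_R hU hc hv (a := g) ⟨hg, hgo⟩
  have hst := hU'.tree s (hc.right hgs)
  have h3 : Top U Γ (v ++ [x']) w := by
    have := h1.map hU hU' hc hgs
    rwa [hgx, (h.1 s hs).fix hst] at this
  -- a full piece
  have h4 : ∃ s ∈ img Γ (R U (v ++ [x])), ¬ On w s := by
    obtain ⟨s, hs, hs1⟩ := img_ne hU hc (hd1 x)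
    refine ⟨s, hs, fun hon => hs1 ?_⟩
    ext u : 1
    by_cases hu : w <+: u
    · exact hon u hu
    · exact h1.1 s hs u hu
  obtain ⟨w', hww', hw'⟩ := full hU hU' hc (hd1 x) h4
  -- extend it
  obtain ⟨w'', hw'', hl⟩ := exists_ext w' (w'.length + 1) (Nat.le_succ _)
  obtain ⟨y, hy⟩ : ∃ y, w ++ [y] <+: w'' := by
    obtain ⟨q, hq⟩ := hww'.trans hw''
    rcases q with _ | ⟨z, q⟩
    · exfalso
      rw [List.append_nil] at hq
      have e1 := hww'.length_le
      rw [← hq] at hl
      omega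
    · exact ⟨z, q, by rw [← hq]; simp⟩
  obtain ⟨y', hy'⟩ := exists_ne y
  obtain ⟨s', hs', hsy⟩ := h3.trans hU hU' hc (hd1 x') y y'
  have hst' : IsTree s' := Top.tree_img hU' hc hs'
  obtain ⟨r, hr, hr1⟩ := hU'.exists_ne w''
  apply hr1
  obtain ⟨c, hcR, hcr⟩ := hw' (R_mono hw'' hr)
  obtain ⟨c', hcR', hcr'⟩ := hs'
  have hcomm : s' * r = r * s' := by
    apply hc.comm hcr' hcr
    exact hcR'.2.comm hcR.2 (snoc_inc hx') (snoc_inc hx'.symm) (hU.tree c hcR.1)
  have h5 : Off (s' w'') r := by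
    have h6 := hr.2.conj hst'
    have e : s' * r * s'⁻¹ = r := by rw [hcomm]; group
    rwa [e] at h6
  have h7 : w ++ [y'] <+: s' w'' := by
    rw [← hsy]
    exact hst'.2 _ _ hy
  exact hr.2.eq_one h5 (inc_below hy'.symm hy h7) (inc_below hy' h7 hy)

include hU hU' hc in
/-- The map on the children. -/
theorem Top.children {v w : List X} (hv : Dom U Γ v.length) (h : Top U Γ v w) :
    ∃ e : Equiv.Perm X, ∀ x, Top U Γ (v ++ [x]) (w ++ [e x]) := by
  classical
  have hX : Nonempty X := inferInstance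
  have hd1 : ∀ x, Dom U Γ (v ++ [x]).length := fun x => hv.mono hU (by simp)
  have htr : ∀ s ∈ img Γ (R U v), IsTree s := fun s hs => Top.tree_img hU' hc hs
  -- surjectivity
  have hsurj : ∀ y, ∃ x w', Top U Γ (v ++ [x]) w' ∧ w ++ [y] <+: w' := by
    intro y
    obtain ⟨x0⟩ := hX
    obtain ⟨w0, hw0⟩ := exists_top hU hc (hd1 x0)
    obtain ⟨h1, h2⟩ := h.lt hU hU' hc hv hw0
    obtain ⟨y0, hy0⟩ : ∃ y0, w ++ [y0] <+: w0 := by
      obtain ⟨q, hq⟩ := h1
      rcases q with _ | ⟨z, q⟩
      · exact absurd (by rw [← hq, List.append_nil]) h2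
      · exact ⟨z, q, by rw [← hq]; simp⟩
    obtain ⟨s, hs, hsy⟩ := h.trans hU hU' hc hv y0 y
    obtain ⟨g, hgR, hgs⟩ := hs
    have hgt := hU.tree g hgR.1
    have hst := hU'.tree s (hc.right hgs)
    have h3 := hw0.map hU hU' hc hgs
    -- `g (v ++ [x0])` is a child of `v`
    have h4 : v <+: g (v ++ [x0]) := hgR.2.pre (List.prefix_append _ _)
    obtain ⟨q, hq⟩ := h4
    have hl : q.length = 1 := by
      have := hgt.1 (v ++ [x0])
      rw [← hq, List.length_append, List.length_append] at this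
      simpa using this
    obtain ⟨x, rfl⟩ := List.length_eq_one_iff.1 hl
    refine ⟨x, s w0, ?_, ?_⟩
    · rw [hq]; exact h3
    · rw [← hsy]
      exact hst.2 _ _ hy0
  choose f w' hf1 hf2 using hsurj
  have hinj : Function.Injective f := by
    intro y y' hyy
    have h1 := hf1 y
    rw [hyy] at h1
    have h2 := h1.unique (hf1 y')
    have h3 := hf2 y
    rw [h2] at h3
    by_contra hne
    exact inc_below hne h3 (hf2 y') (List.prefix_refl _)
  have hbij : Function.Bijective f := Finite.injective_iff_bijective.1 hinj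
  have hexact : ∀ y, w' y = w ++ [y] := by
    intro y
    by_contra hne
    obtain ⟨q, hq⟩ := hf2 y
    rcases q with _ | ⟨z, q⟩
    · exact hne (by rw [← hq, List.append_nil])
    obtain ⟨z', hz'⟩ := exists_ne z
    set u0 := (w ++ [y]) ++ [z'] with hu0
    have hzz : (w ++ [y]) ++ [z] <+: w' y := ⟨q, by rw [← hq]; simp⟩
    have hyu0 : w ++ [y] <+: u0 := List.prefix_append _ _
    -- all the children act trivially on the cone of `u0`
    have hon : ∀ x, ∀ d ∈ img Γ (R U (v ++ [x])), On u0 d := by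
      intro x d hd
      obtain ⟨y1, rfl⟩ := hbij.2 x
      have hoff := (hf1 y1).1 d hd
      by_cases hyy : y1 = y
      · subst hyy
        exact hoff.on (inc_below hz'.symm hzz (List.prefix_refl _))
          (inc_below hz' (List.prefix_refl _) hzz)
      · exact hoff.on (inc_below hyy (hf2 y1) hyu0) (inc_below (Ne.symm hyy) hyu0 (hf2 y1))
    -- but `R U v` does not
    obtain ⟨y', hy'⟩ := exists_ne y
    obtain ⟨s, hs, hsy⟩ := h.trans hU hU' hc hv y y'
    have hnon : ∃ s ∈ img Γ (R U v), ¬ On u0 s := by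
      refine ⟨s, hs, fun hon' => ?_⟩
      have h1 := (htr s hs).fix_pre hyu0 hon'.fix
      rw [hsy] at h1
      exact snoc_ne hy' h1
    obtain ⟨w2, hw2, hw2'⟩ := full hU hU' hc hv hnon
    obtain ⟨m2, hm2⟩ := hc.c1 (v.length + 1)
    obtain ⟨u', huu, hl⟩ := exists_ext w2 (max w2.length m2) (le_max_left _ _)
    obtain ⟨r, hr, hr1⟩ := hU'.exists_ne u'
    have hrt := hU'.tree r hr.1
    obtain ⟨a, haN, har⟩ := hm2 r hr.1 (hr.2.st hrt (by rw [hl]; exact le_max_right _ _))
    obtain ⟨a0, ha0, ha0r⟩ := hw2' (R_mono huu hr)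
    have haa : a = a0 := hc.uniq har ha0r
    subst haa
    have hat := hU.tree a ha0.1
    apply hr1
    have ha1 : a = 1 := by
      have hona : ∀ x, On (v ++ [x]) a := by
        intro x
        apply hU.on_of_comm hat
        intro c hcR
        obtain ⟨d, hd, hcd⟩ := dom_R hU hc (hd1 x) hcR
        have h1 : On u0 d := hon x d hd
        have hdt := hU'.tree d (hc.right hcd)
        have h2 : Off u0 r := hr.2.mono (hw2.trans huu)
        exact hc.symm.comm har hcd (h2.comm_on h1 hdt)
      ext t : 1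
      rw [one_apply]
      by_cases hvt : v <+: t
      · obtain ⟨q', rfl⟩ := hvt
        rcases q' with _ | ⟨x, q'⟩
        · rw [List.append_nil]
          exact ha0.2.fix hat
        · exact hona x _ ⟨q', by simp⟩
      · exact ha0.2 t hvt
    subst ha1
    exact hc.inj har
  refine ⟨(Equiv.ofBijective f hbij).symm, fun x => ?_⟩
  obtain ⟨y, rfl⟩ := hbij.2 x
  have h1 : (Equiv.ofBijective f hbij).symm (f y) = y := (Equiv.ofBijective f hbij).symm_apply_apply y
  rw [h1, ← hexact y]
  exact hf1 y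

include hU hU' hc in
/-- **Rigidity.** A correspondence is induced, below some vertex, by an isomorphism of trees. -/
theorem rigid : ∃ (v w : List X) (f : List X → List X), f [] = [] ∧
    (∀ u, ∃ e : Equiv.Perm X, ∀ x, f (u ++ [x]) = f u ++ [e x]) ∧
    ∀ g ∈ R U v, ∃ s ∈ R U' w, ∀ u u', g (v ++ u) = v ++ u' → s (w ++ f u) = w ++ f u' := by
  classical
  have hX : Nonempty X := inferInstance
  obtain ⟨k, hk⟩ := hc.c2 0
  have hdom : Dom U Γ k := fun a ha hs => by
    obtain ⟨b, -, hb⟩ := hk a ha hs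
    exact ⟨b, hb⟩
  obtain ⟨v, -, hv⟩ := exists_ext ([] : List X) k (Nat.zero_le _)
  have hd : ∀ u, Dom U Γ (v ++ u).length := fun u => hdom.mono hU (by simp [hv])
  obtain ⟨w, hw⟩ := exists_top hU hc (v := v) (by rw [hv]; exact hdom)
  have hex : ∀ u, ∃ t, Top U Γ (v ++ u) (w ++ t) := by
    intro u
    induction u using List.reverseRecOn with
    | nil => exact ⟨[], by simpa using hw⟩
    | append_singleton u x ih =>
      obtain ⟨t, ht⟩ := ih
      obtain ⟨e, he⟩ := ht.children hU hU' hc (hd u)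
      refine ⟨t ++ [e x], ?_⟩
      have := he x
      rwa [List.append_assoc, List.append_assoc] at this
  choose f hf using hex
  have hcancel : ∀ a b : List X, w ++ a = w ++ b → a = b := fun a b h => List.append_cancel_left h
  refine ⟨v, w, f, ?_, fun u => ?_, fun g hg => ?_⟩
  · apply hcancel
    refine (hf []).unique ?_
    simpa using hw
  · obtain ⟨e, he⟩ := (hf u).children hU hU' hc (hd u)
    refine ⟨e, fun x => ?_⟩
    apply hcancel
    refine (hf (u ++ [x])).unique ?_
    have := he x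
    rwa [List.append_assoc, List.append_assoc] at this
  · obtain ⟨s, hs, hgs⟩ := dom_R hU hc (by rw [hv]; exact hdom) hg
    refine ⟨s, ⟨hc.right hgs, hw.1 s hs⟩, fun u u' huu => ?_⟩
    have h1 := (hf u).map hU hU' hc hgs
    rw [huu] at h1
    exact h1.unique (hf u')

end Pool.Agent.H335.BR
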