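import Pool.Agent.H335.BR.NiceU
import Pool.Agent.H335.BR.Rigid2

/-!
# The groups `U lam` for distinct `lam` are not commensurable: combinatorial form
-/

set_option autoImplicit false

namespace Pool.Agent.H335.BR

open Equiv.Perm

/-- the number of fixed points of a permutation -/
def nfix {Y : Type} [Fintype Y] [DecidableEq Y] (s : Equiv.Perm Y) : ℕ :=
  (Finset.univ.filter fun y => s y = y).card

theorem nfix_conj {Y : Type} [Fintype Y] [DecidableEq Y] {s t : Equiv.Perm Y} (e : Equiv.Perm Y)
    (h : ∀ x, t (e x) = e (s x)) : nfix t = nfix s := by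
  unfold nfix
  symm
  refine Finset.card_bij (fun x _ => e x) ?_ (fun _ _ _ _ h => e.injective h) ?_
  · intro x hx
    simp only [Finset.mem_filter, Finset.mem_univ, true_and] at hx ⊢
    rw [h, hx]
  · intro y hy
    simp only [Finset.mem_filter, Finset.mem_univ, true_and] at hy
    refine ⟨e.symm y, ?_, e.apply_symm_apply y⟩
    simp only [Finset.mem_filter, Finset.mem_univ, true_and]
    apply e.injective
    rw [← h, e.apply_symm_apply, hy]

theorem nfix_rho (l : L) : nfix (rho l) = nfix l.1 * nfix l.2 := by
  unfold nfix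
  rw [← Finset.card_product]
  congr 1
  ext x
  rw [Finset.mem_product, Finset.mem_filter, Finset.mem_filter, Finset.mem_filter]
  constructor
  · intro h
    exact ⟨⟨Finset.mem_univ _, congrArg Prod.fst h.2⟩, ⟨Finset.mem_univ _, congrArg Prod.snd h.2⟩⟩
  · intro h
    exact ⟨Finset.mem_univ _, Prod.ext h.1.2 h.2.2⟩

theorem nfix3 (s : Equiv.Perm (Fin 3)) : (nfix s = 3 ∧ sign s = 1) ∨ (nfix s = 1 ∧ sign s = -1) ∨
    (nfix s = 0 ∧ sign s = 1) := by
  revert s
  decide

theorem nfix4 (s : Equiv.Perm (Fin 4)) : (nfix s = 4 ∧ sign s = 1) ∨ (nfix s = 2 ∧ sign s = -1) ∨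
    (nfix s = 1 ∧ sign s = 1) ∨ nfix s = 0 := by
  revert s
  decide

theorem eps_eq (l : L) : eps l = sign l.1 := rfl
theorem chi_eq (l : L) : chi l = sign l.2 := rfl

theorem class_six {l : L} (h : nfix (rho l) = 6) : eps l = 1 ∧ chi l = -1 := by
  rw [nfix_rho] at h
  rw [eps_eq, chi_eq]
  rcases nfix3 l.1 with ⟨h1, h2⟩ | ⟨h1, h2⟩ | ⟨h1, h2⟩ <;>
  rcases nfix4 l.2 with ⟨h3, h4⟩ | ⟨h3, h4⟩ | ⟨h3, h4⟩ | h3 <;>
  rw [h1, h3] at h <;> first | exact ⟨h2, h4⟩ | omega

theorem class_four {l : L} (h : nfix (rho l) = 4) : eps l = -1 ∧ chi l = 1 := by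
  rw [nfix_rho] at h
  rw [eps_eq, chi_eq]
  rcases nfix3 l.1 with ⟨h1, h2⟩ | ⟨h1, h2⟩ | ⟨h1, h2⟩ <;>
  rcases nfix4 l.2 with ⟨h3, h4⟩ | ⟨h3, h4⟩ | ⟨h3, h4⟩ | h3 <;>
  rw [h1, h3] at h <;> first | omega | exact ⟨h2, h4⟩

theorem class_twelve {l : L} (h : nfix (rho l) = 12) : eps l = 1 ∧ chi l = 1 := by
  rw [nfix_rho] at h
  rw [eps_eq, chi_eq]
  rcases nfix3 l.1 with ⟨h1, h2⟩ | ⟨h1, h2⟩ | ⟨h1, h2⟩ <;>
  rcases nfix4 l.2 with ⟨h3, h4⟩ | ⟨h3, h4⟩ | ⟨h3, h4⟩ | h3 <;>
  rw [h1, h3] at h <;> first | omega | exact ⟨h2, h4⟩

/-- the label used in the comparison -/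
def lab : L := (1, Equiv.swap 0 1)

/-- the letter used in the comparison -/
def let2 : A := (2, 2)

theorem eps_lab : eps lab = 1 := eps_snd _
theorem chi_lab : chi lab = -1 := by
  rw [chi_eq]
  exact Equiv.Perm.sign_swap (by decide)

theorem lab_fix : rho lab let2 = let2 := by decide
theorem base_fix (e : ℤˣ) : rho (base e) let2 = let2 := by
  unfold base
  split_ifs
  · rfl
  · decide

theorem nfix_lab : nfix (rho lab) = 6 := by rw [nfix_rho]; decide
theorem nfix_base : nfix (rho (base (-1))) = 4 := by rw [nfix_rho]; decide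
theorem nfix_one : nfix (rho 1) = 12 := by rw [nfix_rho]; decide

/-- the labels of the comparison element along the comparison ray -/
theorem spinP_ray (lam : ℕ → Bool) (v : List A) (k : ℕ) :
    spinP lam v lab (v ++ List.replicate (k + 1) let2) = if lam k then base (-1) else 1 := by
  unfold spinP
  rw [if_neg (by simp), chi_lab]
  have h1 : (v ++ List.replicate (k + 1) let2).length - 1 - v.length = k := by
    rw [List.length_append, List.length_replicate]; omega
  rw [h1]
  simp

theorem spin_ray (lam : ℕ → Bool) (v : List A) (k : ℕ) :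
    spin lam v lab (v ++ List.replicate k let2) = v ++ List.replicate k let2 := by
  induction k with
  | zero =>
    rw [List.replicate_zero, List.append_nil]
    exact (spin_off lam v lab).fix (act_tree _)
  | succ k ih =>
    have h1 : v ++ List.replicate (k + 1) let2 = (v ++ List.replicate k let2) ++ [let2] := by
      rw [List.replicate_succ', List.append_assoc]
    rw [h1]
    have h2 := act_snoc (spinP lam v lab) (v ++ List.replicate k let2) let2
    rw [← spin, ih] at h2
    rw [h2]
    congr 2
    rcases k with _ | k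
    · rw [List.replicate_zero, List.append_nil, spinP_self]
      exact lab_fix
    · rw [spinP_ray]
      split_ifs
      · exact base_fix _
      · rfl

theorem lam_eq_of_corr {lam mu : ℕ → Bool}
    {Γ : Subgroup (Equiv.Perm (List A) × Equiv.Perm (List A))} (hc : Corr (U lam) (U mu) Γ) :
    lam = mu := by
  obtain ⟨v, w, f, hf0, hf, hr⟩ := rigid (nice_U lam) (nice_U mu) hc
  obtain ⟨s, ⟨hsU, hso⟩, hs⟩ := hr _ ⟨spin_mem lam v eps_lab, spin_off lam v lab⟩
  obtain ⟨ψ, hψ, rfl⟩ := hsU
  -- the points of the ray
  have hlen : ∀ k, (f (List.replicate k let2)).length = k := by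
    intro k
    induction k with
    | zero => rw [List.replicate_zero, hf0]; rfl
    | succ k ih =>
      obtain ⟨e, he⟩ := hf (List.replicate k let2)
      rw [List.replicate_succ', he, List.length_append, ih]
      rfl
  have hpre : ∀ k j, f (List.replicate k let2) <+: f (List.replicate (k + j) let2) := by
    intro k j
    induction j with
    | zero => exact List.prefix_refl _
    | succ j ih =>
      obtain ⟨e, he⟩ := hf (List.replicate (k + j) let2)
      rw [← add_assoc, List.replicate_succ', he]
      exact ih.trans (List.prefix_append _ _)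
  have hfix : ∀ k, act ψ (w ++ f (List.replicate k let2)) = w ++ f (List.replicate k let2) :=
    fun k => hs _ _ (spin_ray lam v k)
  -- the labels are conjugate
  have hnf : ∀ k, nfix (rho (ψ (w ++ f (List.replicate k let2)))) =
      nfix (rho (spinP lam v lab (v ++ List.replicate k let2))) := by
    intro k
    obtain ⟨e, he⟩ := hf (List.replicate k let2)
    refine nfix_conj e fun x => ?_
    have h1 : spin lam v lab (v ++ (List.replicate k let2 ++ [x])) =
        v ++ (List.replicate k let2 ++ [rho (spinP lam v lab (v ++ List.replicate k let2)) x]) := by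
      rw [← List.append_assoc, ← List.append_assoc, spin, act_snoc]
      congr 1
      exact spin_ray lam v k
    have h2 := hs _ _ h1
    rw [he, he, ← List.append_assoc, ← List.append_assoc, act_snoc, hfix] at h2
    simpa using h2
  have hchi : ∀ k, chi (ψ (w ++ f (List.replicate (k + 1) let2))) = 1 ∧
      eps (ψ (w ++ f (List.replicate (k + 1) let2))) = if lam k then -1 else 1 := by
    intro k
    have h1 := hnf (k + 1)
    rw [spinP_ray] at h1
    split_ifs at h1 ⊢ with hl
    · rw [nfix_base] at h1
      exact ⟨(class_four h1).2, (class_four h1).1⟩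
    · rw [nfix_one] at h1
      exact ⟨(class_twelve h1).2, (class_twelve h1).1⟩
  have hchi0 : chi (ψ w) = -1 := by
    have h1 := hnf 0
    rw [List.replicate_zero, hf0, List.append_nil, List.append_nil, spinP_self, nfix_lab] at h1
    exact (class_six h1).2
  have hst : St w.length (act ψ) := hso.st (act_tree ψ) le_rfl
  funext k
  have h1 := hψ (w ++ f (List.replicate (k + 1) let2))
  rw [(hchi k).2] at h1
  have h2 : val mu ψ (w ++ f (List.replicate (k + 1) let2)) = if mu k then -1 else 1 := by
    unfold val
    have hL : (w ++ f (List.replicate (k + 1) let2)).length = w.length + (k + 1) := by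
      rw [List.length_append, hlen]
    rw [hL, Finset.prod_eq_single w.length]
    · have h3 : w.length + (k + 1) - 1 - w.length = k := by omega
      rw [h3, List.take_left, hchi0]
    · intro i hi hne
      have hi' := Finset.mem_range.1 hi
      have h3 : chi (ψ ((w ++ f (List.replicate (k + 1) let2)).take i)) = 1 := by
        rcases lt_or_gt_of_ne hne with h | h
        · rw [hst.label (by rw [List.length_take]; omega), map_one]
        · obtain ⟨j, rfl⟩ : ∃ j, i = w.length + (j + 1) := ⟨i - w.length - 1, by omega⟩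
          obtain ⟨m, hm⟩ : ∃ m, k + 1 = (j + 1) + m := ⟨k - j, by omega⟩
          have h4 : (w ++ f (List.replicate (k + 1) let2)).take (w.length + (j + 1)) =
              w ++ f (List.replicate (j + 1) let2) := by
            refine pre_eq (List.take_prefix _ _) ?_ ?_
            · rw [hm]
              exact (List.prefix_append_right_inj w).2 (hpre (j + 1) m)
            · rw [List.length_take, hL, List.length_append, hlen]
              omega
          rw [h4]
          exact (hchi j).1
      rw [h3]
      simp
    · intro h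
      exact absurd (Finset.mem_range.2 (by omega)) h
  rw [h2] at h1
  by_cases ha : lam k = true <;> by_cases hb : mu k = true <;> simp [ha, hb] at h1 ⊢

end Pool.Agent.H335.BR
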