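import Pool.Agent.H335.BR.BranchU

/-!
# The groups `U lam` are expansively embeddable
-/

set_option autoImplicit false

namespace Pool.Agent.H335.BR

open Topology Filter Equiv.Perm

/-! ### The involution `hh` -/

/-- the first special letter -/
def lx : A := (0, 0)
/-- the second special letter -/
def ly : A := (1, 1)

theorem lx_ne_ly : lx ≠ ly := by decide

/-- exchanging `lx :: u` and `ly :: ly :: u` -/
def hFun : List A → List A
  | [] => []
  | [a] => if a = lx then [ly, ly] else [a]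
  | a :: b :: u => if a = lx then ly :: ly :: b :: u else
      if a = ly ∧ b = ly then lx :: u else a :: b :: u

theorem hFun_x (u : List A) : hFun (lx :: u) = ly :: ly :: u := by
  rcases u with _ | ⟨b, u⟩ <;> simp [hFun]

theorem hFun_y (u : List A) : hFun (ly :: ly :: u) = lx :: u := by
  simp [hFun, lx_ne_ly.symm]

theorem hFun_other {w : List A} (h1 : ¬ [lx] <+: w) (h2 : ¬ [ly, ly] <+: w) : hFun w = w := by
  match w, h1, h2 with
  | [], _, _ => rfl
  | [a], h1, _ =>
    have : a ≠ lx := by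
      rintro rfl
      exact h1 (List.prefix_refl _)
    simp [hFun, this]
  | a :: b :: u, h1, h2 =>
    have h3 : a ≠ lx := by
      rintro rfl
      exact h1 ⟨b :: u, rfl⟩
    have h4 : ¬ (a = ly ∧ b = ly) := by
      rintro ⟨rfl, rfl⟩
      exact h2 ⟨u, rfl⟩
    simp [hFun, h3, h4]

theorem hcases (w : List A) : (∃ u, w = lx :: u) ∨ (∃ u, w = ly :: ly :: u) ∨
    (¬ [lx] <+: w ∧ ¬ [ly, ly] <+: w) := by
  by_cases h1 : [lx] <+: w
  · obtain ⟨u, rfl⟩ := h1
    exact Or.inl ⟨u, rfl⟩
  · by_cases h2 : [ly, ly] <+: w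
    · obtain ⟨u, rfl⟩ := h2
      exact Or.inr (Or.inl ⟨u, rfl⟩)
    · exact Or.inr (Or.inr ⟨h1, h2⟩)

theorem hFun_hFun (w : List A) : hFun (hFun w) = w := by
  rcases hcases w with ⟨u, rfl⟩ | ⟨u, rfl⟩ | ⟨h1, h2⟩
  · rw [hFun_x, hFun_y]
  · rw [hFun_y, hFun_x]
  · rw [hFun_other h1 h2, hFun_other h1 h2]

/-- the involution exchanging `lx :: u` and `ly :: ly :: u` -/
def hh : Equiv.Perm (List A) := ⟨hFun, hFun, hFun_hFun, hFun_hFun⟩

theorem hh_x (u : List A) : hh (lx :: u) = ly :: ly :: u := hFun_x u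
theorem hh_y (u : List A) : hh (ly :: ly :: u) = lx :: u := hFun_y u
theorem hh_other {w : List A} (h1 : ¬ [lx] <+: w) (h2 : ¬ [ly, ly] <+: w) : hh w = w :=
  hFun_other h1 h2
theorem hh_inv : hh⁻¹ = hh := rfl
theorem hh_hh (w : List A) : hh (hh w) = w := hFun_hFun w

theorem nil_other : ¬ [lx] <+: ([] : List A) ∧ ¬ [ly, ly] <+: ([] : List A) := by
  constructor <;> (intro h; have := h.length_le; simp at this)

theorem hh_nil : hh [] = [] := rfl

theorem hh_ly : hh [ly] = [ly] := by
  apply hh_other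
  · intro h
    have := h.eq_of_length rfl
    simp at this
    exact lx_ne_ly this
  · intro h
    have := h.length_le
    simp at this

/-- twisting a portrait -/
def twP (φ : List A → L) : List A → L := fun p => φ (hh p)

section

variable {φ : List A → L} (h0 : φ [] = 1) (h1 : ∀ z, φ [z] = 1)
include h0 h1

theorem act_lev1 (z : A) (u : List A) : act φ (z :: u) = z :: act (fun r => φ (z :: r)) u := by
  rw [act_cons, h0, rho_one]
  rfl

theorem act_lev2 (z t : A) (u : List A) :
    act φ (z :: t :: u) = z :: t :: act (fun r => φ (z :: t :: r)) u := by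
  rw [act_lev1 h0 h1, act_cons, h1, rho_one]
  rfl

theorem other_iff {w : List A} : ([lx] <+: act φ w ↔ [lx] <+: w) ∧
    ([ly, ly] <+: act φ w ↔ [ly, ly] <+: w) := by
  constructor
  · have : act φ [lx] = [lx] := by rw [act_lev1 h0 h1]; rfl
    conv_lhs => rw [← this]
    exact (act_tree φ).pre_iff
  · have : act φ [ly, ly] = [ly, ly] := by rw [act_lev2 h0 h1]; rfl
    conv_lhs => rw [← this]
    exact (act_tree φ).pre_iff

theorem conj_hh : hh * act φ * hh⁻¹ = act (twP φ) := by
  refine Equiv.ext fun w => ?_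
  rw [mul_apply, mul_apply, hh_inv]
  have t0 : twP φ [] = 1 := by rw [twP, hh_nil, h0]
  rcases hcases w with ⟨u, rfl⟩ | ⟨u, rfl⟩ | ⟨ha, hb⟩
  · rw [hh_x, act_lev2 h0 h1, hh_y, act_cons, t0, rho_one]
    congr 1
    show _ = act (fun p => φ (hh (lx :: p))) u
    simp only [hh_x]
  · rw [hh_y, act_lev1 h0 h1, hh_x, act_cons, t0, rho_one, act_cons]
    have t1 : twP φ [ly] = 1 := by rw [twP, hh_ly, h1]
    rw [t1, rho_one]
    congr 2
  · obtain ⟨h2, h3⟩ := other_iff h0 h1 (w := w)
    rw [hh_other ha hb, hh_other (fun h => ha (h2.1 h)) (fun h => hb (h3.1 h))]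
    refine act_congr fun i _ => ?_
    rw [twP, hh_other]
    · exact fun h => ha (h.trans (List.take_prefix _ _))
    · exact fun h => hb (h.trans (List.take_prefix _ _))

end

theorem val_section {lam : ℕ → Bool} {φ : List A → L} {p : List A}
    (h : ∀ i < p.length, φ (p.take i) = 1) (u : List A) :
    val lam φ (p ++ u) = val lam (fun r => φ (p ++ r)) u := by
  unfold val
  rw [List.length_append, Finset.prod_range_add]
  rw [Finset.prod_eq_one, one_mul]
  · refine Finset.prod_congr rfl fun j hj => ?_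
    have hj' := Finset.mem_range.1 hj
    have h1 : p.length + u.length - 1 - (p.length + j) = u.length - 1 - j := by omega
    rw [h1, List.take_length_add_append]
  · intro i hi
    have hi' := Finset.mem_range.1 hi
    rw [List.take_append_of_le_length hi'.le, h i hi', map_one]
    simp

theorem cond_section {lam : ℕ → Bool} {φ : List A → L} (hφ : Cond lam φ) {p : List A}
    (h : ∀ i < p.length, φ (p.take i) = 1) : Cond lam (fun r => φ (p ++ r)) := by
  intro u
  rw [← val_section h]
  exact hφ _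

theorem cond_twP {lam : ℕ → Bool} {φ : List A → L} (hφ : Cond lam φ) (h0 : φ [] = 1)
    (h1 : ∀ z, φ [z] = 1) : Cond lam (twP φ) := by
  have t0 : twP φ [] = 1 := by rw [twP, hh_nil, h0]
  have t1 : twP φ [ly] = 1 := by rw [twP, hh_ly, h1]
  intro w
  rcases hcases w with ⟨u, rfl⟩ | ⟨u, rfl⟩ | ⟨ha, hb⟩
  · have e1 : twP φ (lx :: u) = φ ([ly, ly] ++ u) := by rw [twP, hh_x]; rfl
    have e2 : (fun r => twP φ ([lx] ++ r)) = fun r => φ ([ly, ly] ++ r) := by
      funext r
      show φ (hh (lx :: r)) = _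
      rw [hh_x]
      rfl
    have e3 := val_section (lam := lam) (φ := twP φ) (p := [lx])
      (by intro i hi; simp only [List.length_singleton, Nat.lt_one_iff] at hi; subst hi; exact t0) u
    rw [List.singleton_append] at e3
    rw [e1, e3, e2]
    refine cond_section hφ ?_ u
    intro i hi
    have : i = 0 ∨ i = 1 := by simp at hi; omega
    rcases this with rfl | rfl
    · exact h0
    · exact h1 ly
  · have e1 : twP φ (ly :: ly :: u) = φ ([lx] ++ u) := by rw [twP, hh_y]; rfl
    have e2 : (fun r => twP φ ([ly, ly] ++ r)) = fun r => φ ([lx] ++ r) := by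
      funext r
      show φ (hh (ly :: ly :: r)) = _
      rw [hh_y]
      rfl
    have e3 := val_section (lam := lam) (φ := twP φ) (p := [ly, ly])
      (by
        intro i hi
        have : i = 0 ∨ i = 1 := by simp at hi; omega
        rcases this with rfl | rfl
        · exact t0
        · exact t1) u
    have e4 : [ly, ly] ++ u = ly :: ly :: u := rfl
    rw [e4] at e3
    rw [e1, e3, e2]
    refine cond_section hφ ?_ u
    intro i hi
    simp only [List.length_singleton, Nat.lt_one_iff] at hi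
    subst hi
    exact h0
  · have e1 : twP φ w = φ w := by rw [twP, hh_other ha hb]
    rw [e1, hφ]
    unfold val
    refine Finset.prod_congr rfl fun i _ => ?_
    have : twP φ (w.take i) = φ (w.take i) := by
      rw [twP, hh_other]
      · exact fun h => ha (h.trans (List.take_prefix _ _))
      · exact fun h => hb (h.trans (List.take_prefix _ _))
    rw [this]

theorem hh_conj_mem {lam : ℕ → Bool} {g : Equiv.Perm (List A)} (hg : g ∈ U lam) (hs : St 2 g) :
    hh * g * hh⁻¹ ∈ U lam := by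
  obtain ⟨φ, hφ, rfl⟩ := hg
  have h0 : φ [] = 1 := hs.label (by simp)
  have h1 : ∀ z, φ [z] = 1 := fun z => hs.label (by simp)
  rw [conj_hh h0 h1]
  exact ⟨_, cond_twP hφ h0 h1, rfl⟩

/-! ### The group `K lam` -/

/-- The group generated by `U lam` and `hh`, as a subgroup. -/
def Ksub (lam : ℕ → Bool) : Subgroup (Equiv.Perm (List A)) :=
  Subgroup.closure ((U lam : Set _) ∪ {hh})

/-- The group `K lam`. -/
def K (lam : ℕ → Bool) : Type := Ksub lam

instance grpK (lam : ℕ → Bool) : Group (K lam) := inferInstanceAs (Group (Ksub lam))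

/-- The action of `K lam` on words. -/
def toQ (lam : ℕ → Bool) : K lam →* Equiv.Perm (List A) := (Ksub lam).subtype

theorem toQ_inj (lam : ℕ → Bool) : Function.Injective (toQ lam) := Subtype.val_injective

/-- the element of `K lam` given by a permutation -/
def mk (lam : ℕ → Bool) (p : Equiv.Perm (List A)) (hp : p ∈ Ksub lam) : K lam := ⟨p, hp⟩

theorem toQ_mk (lam : ℕ → Bool) (p : Equiv.Perm (List A)) (hp : p ∈ Ksub lam) :
    toQ lam (mk lam p hp) = p := rfl

theorem U_le (lam : ℕ → Bool) : U lam ≤ Ksub lam := fun _ hx => Subgroup.subset_closure (Or.inl hx)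

theorem hh_mem (lam : ℕ → Bool) : hh ∈ Ksub lam := Subgroup.subset_closure (Or.inr rfl)

/-- `c` conjugates an open subgroup of `U lam` into `U lam`. -/
def Cm (lam : ℕ → Bool) (c : Equiv.Perm (List A)) : Prop :=
  ∃ F : Finset (List A), ∀ v ∈ U lam, (∀ p ∈ F, v p = p) → c * v * c⁻¹ ∈ U lam

theorem Cm.mul {lam : ℕ → Bool} {c d : Equiv.Perm (List A)} (hc : Cm lam c) (hd : Cm lam d) :
    Cm lam (c * d) := by
  classical
  obtain ⟨F, hF⟩ := hc
  obtain ⟨F', hF'⟩ := hd
  refine ⟨F' ∪ F.image (fun p => d⁻¹ p), fun v hv h => ?_⟩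
  have h1 := hF' v hv (fun p hp => h p (Finset.mem_union_left _ hp))
  have h2 := hF _ h1 (fun p hp => by
    have := h (d⁻¹ p) (Finset.mem_union_right _ (Finset.mem_image_of_mem _ hp))
    rw [mul_apply, mul_apply, this]
    exact d.apply_symm_apply p)
  have h3 : c * d * v * (c * d)⁻¹ = c * (d * v * d⁻¹) * c⁻¹ := by group
  rw [h3]; exact h2

theorem Cm_hh (lam : ℕ → Bool) : Cm lam hh := by
  refine ⟨(List.finite_length_eq A 2).toFinset, fun v hv h => hh_conj_mem hv fun u hu => ?_⟩
  exact h u ((List.finite_length_eq A 2).mem_toFinset.2 hu)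

theorem Cm_K {lam : ℕ → Bool} {c : Equiv.Perm (List A)} (hc : c ∈ Ksub lam) : Cm lam c := by
  have : Cm lam c ∧ Cm lam c⁻¹ := by
    induction hc using Subgroup.closure_induction with
    | mem x hx =>
      have hV : ∀ v ∈ U lam, Cm lam v := fun v hv => ⟨∅, fun w hw _ =>
        (U lam).mul_mem ((U lam).mul_mem hv hw) ((U lam).inv_mem hv)⟩
      rcases hx with hx | hx
      · exact ⟨hV x hx, hV _ ((U lam).inv_mem hx)⟩
      · rw [Set.mem_singleton_iff] at hx
        subst hx
        rw [hh_inv]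
        exact ⟨Cm_hh lam, Cm_hh lam⟩
    | one =>
      have : Cm lam 1 := ⟨∅, fun w hw _ => by simpa using hw⟩
      rw [inv_one]; exact ⟨this, this⟩
    | mul x y _ _ hx hy => rw [mul_inv_rev]; exact ⟨hx.1.mul hy.1, hy.2.mul hx.2⟩
    | inv x _ hx => rw [inv_inv]; exact ⟨hx.2, hx.1⟩
  exact this.1

/-- The basic open subgroups of `K lam`. -/
def VF (lam : ℕ → Bool) (F : Finset (List A)) : Subgroup (K lam) where
  carrier := {k | toQ lam k ∈ U lam ∧ ∀ p ∈ F, toQ lam k p = p}
  mul_mem' := by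
    rintro x y ⟨hx, hx'⟩ ⟨hy, hy'⟩
    refine ⟨by rw [map_mul]; exact (U lam).mul_mem hx hy, fun p hp => ?_⟩
    rw [map_mul, mul_apply, hy' p hp, hx' p hp]
  one_mem' := ⟨by rw [map_one]; exact (U lam).one_mem, fun p _ => by rw [map_one]; rfl⟩
  inv_mem' := by
    rintro x ⟨hx, hx'⟩
    refine ⟨by rw [map_inv]; exact (U lam).inv_mem hx, fun p hp => ?_⟩
    rw [map_inv]
    conv_lhs => rw [← hx' p hp]
    exact (toQ lam x).symm_apply_apply p

theorem mem_VF {lam : ℕ → Bool} {F : Finset (List A)} {k : K lam} :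
    k ∈ VF lam F ↔ toQ lam k ∈ U lam ∧ ∀ p ∈ F, toQ lam k p = p := Iff.rfl

theorem VF_mono {lam : ℕ → Bool} {F F' : Finset (List A)} (h : F ⊆ F') :
    VF lam F' ≤ VF lam F :=
  fun _ hk => ⟨hk.1, fun p hp => hk.2 p (h hp)⟩

/-- The filter basis. -/
@[instance_reducible]
def basis (lam : ℕ → Bool) : GroupFilterBasis (K lam) where
  sets := Set.range fun F => (VF lam F : Set (K lam))
  nonempty := ⟨_, ∅, rfl⟩
  inter_sets := by
    classical
    rintro _ _ ⟨F, rfl⟩ ⟨F', rfl⟩
    exact ⟨_, ⟨F ∪ F', rfl⟩, fun k hk => ⟨VF_mono Finset.subset_union_left hk,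
      VF_mono Finset.subset_union_right hk⟩⟩
  one' := by
    rintro _ ⟨F, rfl⟩
    exact (VF lam F).one_mem
  mul' := by
    rintro _ ⟨F, rfl⟩
    refine ⟨_, ⟨F, rfl⟩, ?_⟩
    rintro _ ⟨x, hx, y, hy, rfl⟩
    exact (VF lam F).mul_mem hx hy
  inv' := by
    rintro _ ⟨F, rfl⟩
    exact ⟨_, ⟨F, rfl⟩, fun x hx => (VF lam F).inv_mem hx⟩
  conj' := by
    classical
    rintro k _ ⟨F, rfl⟩
    obtain ⟨F', hF'⟩ := Cm_K k.2
    refine ⟨_, ⟨F' ∪ F.image (fun p => (toQ lam k)⁻¹ p), rfl⟩, fun x hx => ?_⟩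
    obtain ⟨h1, h2⟩ := hx
    refine ⟨?_, fun p hp => ?_⟩
    · rw [map_mul, map_mul, map_inv]
      exact hF' _ h1 fun p hp => h2 p (Finset.mem_union_left _ hp)
    · rw [map_mul, map_mul, map_inv, mul_apply, mul_apply,
        h2 _ (Finset.mem_union_right _ (Finset.mem_image_of_mem _ hp))]
      exact (toQ lam k).apply_symm_apply p

instance topK (lam : ℕ → Bool) : TopologicalSpace (K lam) := (basis lam).topology

instance tgK (lam : ℕ → Bool) : IsTopologicalGroup (K lam) := (basis lam).isTopologicalGroup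

theorem nhds_one_basis (lam : ℕ → Bool) : (𝓝 (1 : K lam)).HasBasis
    (fun _ : Finset (List A) => True) (fun F => (VF lam F : Set (K lam))) := by
  have h := (basis lam).nhds_one_hasBasis
  refine ⟨fun s => ?_⟩
  rw [h.mem_iff]
  constructor
  · rintro ⟨_, ⟨F, rfl⟩, h⟩
    exact ⟨F, trivial, h⟩
  · rintro ⟨F, -, h⟩
    exact ⟨_, ⟨F, rfl⟩, h⟩

theorem VF_nhds (lam : ℕ → Bool) (F : Finset (List A)) :
    (VF lam F : Set (K lam)) ∈ 𝓝 (1 : K lam) :=
  (nhds_one_basis lam).mem_of_mem trivial

theorem VF_open (lam : ℕ → Bool) (F : Finset (List A)) : IsOpen (VF lam F : Set (K lam)) :=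
  Subgroup.isOpen_of_mem_nhds _ (VF_nhds lam F)

instance t2K (lam : ℕ → Bool) : T2Space (K lam) := by
  apply IsTopologicalGroup.t2Space_of_one_sep
  intro k hk
  have : ∃ p, toQ lam k p ≠ p := by
    by_contra h
    push Not at h
    apply hk
    apply toQ_inj lam
    rw [map_one]
    ext p : 1
    exact h p
  obtain ⟨p, hp⟩ := this
  exact ⟨_, VF_nhds lam {p}, fun h => hp (h.2 p (by simp))⟩

instance nonarchK (lam : ℕ → Bool) : NonarchimedeanGroup (K lam) where
  is_nonarchimedean U hU := by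
    obtain ⟨F, -, hF⟩ := (nhds_one_basis lam).mem_iff.1 hU
    exact ⟨⟨VF lam F, VF_open lam F⟩, hF⟩

/-- the embedding of `U lam` -/
def emb (lam : ℕ → Bool) : UT (U lam) →* K lam where
  toFun g := mk lam (toP g.1) (U_le lam g.2)
  map_one' := rfl
  map_mul' _ _ := rfl

theorem toQ_emb (lam : ℕ → Bool) (g : UT (U lam)) : toQ lam (emb lam g) = toP g.1 := rfl

theorem emb_inj (lam : ℕ → Bool) : Function.Injective (emb lam) := by
  intro g h hgh
  apply Subtype.ext
  apply toP_inj
  rw [← toQ_emb, ← toQ_emb, hgh]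

theorem emb_cont (lam : ℕ → Bool) : Continuous (emb lam) := by
  apply continuous_of_continuousAt_one
  rw [ContinuousAt, map_one, (nhds_one_basis lam).tendsto_right_iff]
  intro F _
  have h2 : ∀ p : List A, ∀ᶠ g in 𝓝 (1 : UT (U lam)), toP g.1 p = p := by
    intro p
    exact ((isOpen_ev (ofL p) (ofL p)).preimage continuous_subtype_val).mem_nhds rfl
  have h3 : ∀ᶠ g in 𝓝 (1 : UT (U lam)), ∀ p ∈ F, toP g.1 p = p := by
    rw [Filter.eventually_all_finset]
    intro p _
    exact h2 p
  filter_upwards [h3] with g hg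
  exact ⟨g.2, hg⟩

theorem range_emb (lam : ℕ → Bool) : (emb lam).range = VF lam ∅ := by
  ext k
  constructor
  · rintro ⟨g, rfl⟩
    exact ⟨g.2, by simp⟩
  · rintro ⟨h, -⟩
    exact ⟨⟨ofP _ (tree_U h), h⟩, toQ_inj lam rfl⟩

instance compactU (lam : ℕ → Bool) : CompactSpace (UT (U lam)) :=
  isCompact_iff_compactSpace.1 (isCompact_UT lam)

theorem VF_compact (lam : ℕ → Bool) : IsCompact (VF lam ∅ : Set (K lam)) := by
  rw [← range_emb]
  exact isCompact_range (emb_cont lam)

instance lcK (lam : ℕ → Bool) : LocallyCompactSpace (K lam) :=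
  (VF_compact lam).locallyCompactSpace_of_mem_nhds_of_group (VF_nhds lam ∅)

theorem tdlcK (lam : ℕ → Bool) : IsTDLC (K lam) where
  isTopologicalGroup := inferInstance
  t2 := inferInstance
  totallyDisconnected := inferInstance
  locallyCompact := inferInstance

theorem cgK (lam : ℕ → Bool) : IsCompactlyGeneratedGroup (K lam) := by
  refine ⟨(VF lam ∅ : Set (K lam)) ∪ {mk lam hh (hh_mem lam)},
    (VF_compact lam).union isCompact_singleton, ?_⟩
  have h1 := Subgroup.closure_closure_coe_preimage (k := (U lam : Set (Equiv.Perm (List A))) ∪ {hh})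
  rw [eq_top_iff]
  have h2 : (⊤ : Subgroup (K lam)) = Subgroup.closure (((↑) : Ksub lam → Equiv.Perm (List A)) ⁻¹'
    ((U lam : Set (Equiv.Perm (List A))) ∪ {hh})) := h1.symm
  rw [h2]
  apply Subgroup.closure_mono
  rintro ⟨k, hk⟩ (h | h)
  · exact Or.inl ⟨h, by simp⟩
  · exact Or.inr (Subtype.ext h)

/-- the isomorphism of `U lam` with an open subgroup -/
theorem emb_iso (lam : ℕ → Bool) :
    ∃ W : Subgroup (K lam), IsOpen (W : Set (K lam)) ∧ Nonempty (UT (U lam) ≃ₜ* W) := by
  refine ⟨(emb lam).range, ?_, ?_⟩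
  · rw [range_emb]
    exact VF_open lam ∅
  · let e : UT (U lam) ≃* (emb lam).range := MonoidHom.ofInjective (emb_inj lam)
    have he : Continuous e := Continuous.subtype_mk (emb_cont lam) _
    exact ⟨{ e with
      continuous_toFun := he
      continuous_invFun := (Continuous.homeoOfEquivCompactToT2 (f := e.toEquiv) he).continuous_invFun }⟩

/-! ### Expansiveness -/

theorem core_aux (lam : ℕ → Bool) (n : ℕ) : ∀ x : K lam, (∀ g : K lam, g⁻¹ * x * g ∈ VF lam ∅) →
    St (n + 2) (toQ lam x) := by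
  -- it is enough to treat one word of the given length
  have key : ∀ (m : ℕ) (w0 : List A), w0.length = m →
      (∀ x : K lam, (∀ g : K lam, g⁻¹ * x * g ∈ VF lam ∅) → toQ lam x w0 = w0) →
      ∀ x : K lam, (∀ g : K lam, g⁻¹ * x * g ∈ VF lam ∅) → St m (toQ lam x) := by
    intro m w0 hw0 h x hx w hw
    obtain ⟨u, hu, -, huw⟩ := trans_U lam [] w0 w List.nil_prefix List.nil_prefix (by rw [hw, hw0])
    let k : K lam := mk lam u (U_le lam hu)
    have h1 := h (k⁻¹ * x * k) fun g => by
      have := hx (k * g)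
      rw [mul_inv_rev] at this
      simpa [mul_assoc] using this
    rw [map_mul, map_mul, map_inv, mul_apply, mul_apply, toQ_mk, huw] at h1
    have h2 := congrArg u h1
    rw [ap_inv, huw] at h2
    exact h2
  let hk : K lam := mk lam hh (hh_mem lam)
  -- the conjugates by `hh`
  have hconj : ∀ x : K lam, (∀ g : K lam, g⁻¹ * x * g ∈ VF lam ∅) →
      ∀ g : K lam, g⁻¹ * (hk * x * hk⁻¹) * g ∈ VF lam ∅ := by
    intro x hx g
    have := hx (hk⁻¹ * g)
    rw [mul_inv_rev, inv_inv] at this
    simpa [mul_assoc] using this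
  have hap : ∀ (x : K lam) (w : List A), toQ lam (hk * x * hk⁻¹) w = hh (toQ lam x (hh w)) := by
    intro x w
    rw [map_mul, map_mul, map_inv, toQ_mk, mul_apply, mul_apply, hh_inv]
  have hU : ∀ x : K lam, (∀ g : K lam, g⁻¹ * x * g ∈ VF lam ∅) → toQ lam x ∈ U lam := by
    intro x hx
    have := (hx 1).1
    simpa using this
  induction n with
  | zero =>
    refine key 2 [ly, ly] rfl fun x hx => ?_
    have h1 := tree_U (hU _ (hconj x hx))
    have h2 := h1.1 [lx]
    rw [hap, hh_x] at h2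
    have h3 : (toQ lam x [ly, ly]).length = 2 := (tree_U (hU x hx)).1 _
    rcases hcases (toQ lam x [ly, ly]) with ⟨u, hu⟩ | ⟨u, hu⟩ | ⟨ha, hb⟩
    · rw [hu, hh_x] at h2
      simp at h2
    · rw [hu] at h3 ⊢
      have : u = [] := by
        simp only [List.length_cons] at h3
        exact List.length_eq_zero_iff.1 (by omega)
      rw [this]
    · rw [hh_other ha hb, h3] at h2
      simp at h2
  | succ n ih =>
    refine key (n + 1 + 2) (ly :: ly :: List.replicate (n + 1) ly) (by simp) fun x hx => ?_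
    have h1 := ih _ (hconj x hx) (lx :: List.replicate (n + 1) ly) (by simp)
    rw [hap, hh_x] at h1
    have h2 := congrArg hh h1
    rw [hh_hh, hh_x] at h2
    exact h2

theorem expansiveK (lam : ℕ → Bool) : IsExpansive (K lam) := by
  refine ⟨VF lam ∅, VF_compact lam, VF_open lam ∅, fun x hx => ?_⟩
  have hU : toQ lam x ∈ U lam := by
    have := (hx 1).1
    simpa using this
  apply toQ_inj lam
  rw [map_one]
  refine Equiv.ext fun w => ?_
  exact St.mono (by omega : w.length ≤ w.length + 2) (tree_U hU) (core_aux lam w.length x hx) w rfl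

theorem embeddable (lam : ℕ → Bool) : ExpansivelyEmbeddable (UT (U lam)) :=
  ⟨K lam, inferInstance, inferInstance, tdlcK lam, cgK lam, expansiveK lam, emb_iso lam⟩

end Pool.Agent.H335.BR
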