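import Pool.Agent.H335.BR.BranchU
import Pool.Agent.H335.BR.Dist

/-!
# The groups `U lam` are pairwise non-commensurable
-/

set_option autoImplicit false

namespace Pool.Agent.H335.BR

open Topology Filter

variable {X : Type} [Finite X] [Nonempty X]

theorem small_sub {U : Subgroup (Equiv.Perm (List X))} (ht : ∀ g ∈ U, IsTree g)
    (Q : Subgroup (UT U)) (hQ : IsOpen (Q : Set (UT U))) {W : Set Q} (hW : W ∈ 𝓝 (1 : Q)) :
    ∃ m, ∀ b ∈ U, St m b → ∃ q : Q, toP q.1.1 = b ∧ q ∈ W := by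
  rw [mem_nhds_subtype] at hW
  obtain ⟨N1, hN1, h1⟩ := hW
  have h2 : N1 ∩ (Q : Set (UT U)) ∈ 𝓝 (1 : UT U) :=
    inter_mem hN1 (hQ.mem_nhds Q.one_mem)
  rw [mem_nhds_subtype] at h2
  obtain ⟨N2, hN2, h3⟩ := h2
  obtain ⟨m, hm⟩ := StT_basis hN2
  refine ⟨m, fun b hb hs => ?_⟩
  have hbU : ofP b (ht b hb) ∈ UT U := hb
  have h4 : (⟨ofP b (ht b hb), hbU⟩ : UT U) ∈ N1 ∩ (Q : Set (UT U)) := h3 (hm hs)
  exact ⟨⟨_, h4.2⟩, rfl, h1 h4.1⟩

/-- the graph of an isomorphism between subgroups -/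
def graph {U U' : Subgroup (Equiv.Perm (List X))} {P : Subgroup (UT U)} {Q : Subgroup (UT U')}
    (e : P ≃ₜ* Q) : Subgroup (Equiv.Perm (List X) × Equiv.Perm (List X)) :=
  (MonoidHom.prod (toP.comp ((UT U).subtype.comp P.subtype))
    ((toP.comp ((UT U').subtype.comp Q.subtype)).comp e.toMulEquiv.toMonoidHom)).range

theorem mem_graph {U U' : Subgroup (Equiv.Perm (List X))} {P : Subgroup (UT U)}
    {Q : Subgroup (UT U')} (e : P ≃ₜ* Q) {a b : Equiv.Perm (List X)} :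
    (a, b) ∈ graph e ↔ ∃ p : P, toP p.1.1 = a ∧ toP (e p).1.1 = b := by
  constructor
  · rintro ⟨p, hp⟩
    exact ⟨p, congrArg Prod.fst hp, congrArg Prod.snd hp⟩
  · rintro ⟨p, rfl, rfl⟩
    exact ⟨p, rfl⟩

theorem open_st {U : Subgroup (Equiv.Perm (List X))} (Q : Subgroup (UT U)) (n : ℕ) :
    {q : Q | St n (toP q.1.1)} ∈ 𝓝 (1 : Q) := by
  have h1 : Continuous (fun q : Q => (q.1.1 : AutT (Words X))) :=
    continuous_subtype_val.comp continuous_subtype_val
  exact ((isOpen_StT n).preimage h1).mem_nhds (StT n).one_mem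

theorem corr_of_iso {U U' : Subgroup (Equiv.Perm (List X))} (ht : ∀ g ∈ U, IsTree g)
    (ht' : ∀ g ∈ U', IsTree g) {P : Subgroup (UT U)} {Q : Subgroup (UT U')}
    (hP : IsOpen (P : Set (UT U))) (hQ : IsOpen (Q : Set (UT U')))
    (e : P ≃ₜ* Q) : Corr U U' (graph e) where
  left := by
    intro a b h
    obtain ⟨p, rfl, -⟩ := (mem_graph e).1 h
    exact p.1.2
  right := by
    intro a b h
    obtain ⟨p, -, rfl⟩ := (mem_graph e).1 h
    exact (e p).1.2
  inj := by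
    intro b h
    obtain ⟨p, hp, rfl⟩ := (mem_graph e).1 h
    have h1 : p = 1 := Subtype.ext (Subtype.ext (toP_inj hp))
    rw [h1, map_one]
    rfl
  inj' := by
    intro a h
    obtain ⟨p, rfl, hp⟩ := (mem_graph e).1 h
    have h1 : e p = 1 := Subtype.ext (Subtype.ext (toP_inj hp))
    have h2 : p = 1 := by
      apply e.injective
      rw [h1, map_one]
    rw [h2]
    rfl
  c1 := by
    intro n
    have hW : e.symm ⁻¹' {p : P | St n (toP p.1.1)} ∈ 𝓝 (1 : Q) := by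
      apply e.symm.continuous_toFun.continuousAt.preimage_mem_nhds
      have : e.symm.toFun 1 = 1 := map_one e.symm
      rw [this]
      exact open_st P n
    obtain ⟨m, hm⟩ := small_sub ht' Q hQ hW
    refine ⟨m, fun b hb hs => ?_⟩
    obtain ⟨q, rfl, hq⟩ := hm b hb hs
    exact ⟨_, hq, (mem_graph e).2 ⟨e.symm q, rfl, by rw [e.apply_symm_apply]⟩⟩
  c2 := by
    intro n
    have hW : e ⁻¹' {p : Q | St n (toP p.1.1)} ∈ 𝓝 (1 : P) := by
      apply e.continuous_toFun.continuousAt.preimage_mem_nhds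
      have : e.toFun 1 = 1 := map_one e
      rw [this]
      exact open_st Q n
    obtain ⟨m, hm⟩ := small_sub ht P hP hW
    refine ⟨m, fun b hb hs => ?_⟩
    obtain ⟨q, rfl, hq⟩ := hm b hb hs
    exact ⟨_, hq, (mem_graph e).2 ⟨q, rfl, rfl⟩⟩

theorem lam_eq_of_comm {lam mu : ℕ → Bool}
    (h : AreCommensurable (UT (U lam)) (UT (U mu))) : lam = mu := by
  obtain ⟨P, Q, hP, hQ, ⟨e⟩⟩ := h
  exact lam_eq_of_corr (corr_of_iso (nice_U lam).tree (nice_U mu).tree hP hQ e)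

end Pool.Agent.H335.BR
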