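import Pool.Agent.H335.BR.Basic

/-!
# Portraits
-/

set_option autoImplicit false

namespace Pool.Agent.H335.BR

open Equiv.Perm

/-- the alphabet -/
abbrev A : Type := Fin 3 × Fin 4

/-- the labels -/
abbrev L : Type := Equiv.Perm (Fin 3) × Equiv.Perm (Fin 4)

/-- the action of the labels on the alphabet -/
def rho (l : L) : Equiv.Perm A := Equiv.prodCongr l.1 l.2

theorem rho_apply (l : L) (x : A) : rho l x = (l.1 x.1, l.2 x.2) := rfl

theorem rho_mul (k l : L) : rho (k * l) = rho k * rho l := rfl

theorem rho_one : rho 1 = 1 := rfl

theorem rho_inv (l : L) : rho l⁻¹ = (rho l)⁻¹ := by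
  rw [eq_inv_iff_mul_eq_one, ← rho_mul, inv_mul_cancel, rho_one]

theorem rho_inj {l : L} (h : ∀ x, rho l x = x) : l = 1 := by
  apply Prod.ext
  · ext i
    have := h (i, 0)
    rw [rho_apply] at this
    have h2 := congrArg Prod.fst this
    simp only at h2
    rw [h2]; rfl
  · ext j
    have := h (0, j)
    rw [rho_apply] at this
    have h2 := congrArg Prod.snd this
    simp only at h2
    rw [h2]; rfl

theorem rho_inv_apply (l : L) (x : A) : rho l (rho l⁻¹ x) = x := by
  rw [rho_inv]; exact (rho l).apply_symm_apply x
theorem rho_apply_inv (l : L) (x : A) : rho l⁻¹ (rho l x) = x := by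
  rw [rho_inv]; exact (rho l).symm_apply_apply x

/-- the action of a portrait on words -/
def actFun : (List A → L) → List A → List A
  | _, [] => []
  | φ, x :: q => rho (φ []) x :: actFun (fun p => φ (x :: p)) q

/-- the portrait of the inverse -/
def invP : (List A → L) → List A → L
  | φ, [] => (φ [])⁻¹
  | φ, y :: p => invP (fun q => φ (rho (φ [])⁻¹ y :: q)) p

theorem actFun_inv (φ : List A → L) (p : List A) : actFun φ (actFun (invP φ) p) = p := by
  induction p generalizing φ with
  | nil => rfl
  | cons x q ih =>
    simp only [actFun, invP, rho_inv_apply]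
    rw [ih]

theorem actFun_inv' (φ : List A → L) (p : List A) : actFun (invP φ) (actFun φ p) = p := by
  induction p generalizing φ with
  | nil => rfl
  | cons x q ih =>
    simp only [actFun, invP, rho_apply_inv]
    rw [ih]

/-- the tree automorphism with portrait `φ` -/
def act (φ : List A → L) : Equiv.Perm (List A) :=
  ⟨actFun φ, actFun (invP φ), actFun_inv' φ, actFun_inv φ⟩

theorem act_nil (φ : List A → L) : act φ [] = [] := rfl
theorem act_cons (φ : List A → L) (x : A) (q : List A) :
    act φ (x :: q) = rho (φ []) x :: act (fun p => φ (x :: p)) q := rfl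

theorem act_inv (φ : List A → L) : (act φ)⁻¹ = act (invP φ) := by
  ext p : 1
  rfl

theorem act_append (φ : List A → L) (p q : List A) :
    act φ (p ++ q) = act φ p ++ act (fun r => φ (p ++ r)) q := by
  induction p generalizing φ with
  | nil => rfl
  | cons x p ih =>
    rw [List.cons_append, act_cons, ih, act_cons]
    rfl

theorem act_snoc (φ : List A → L) (p : List A) (x : A) :
    act φ (p ++ [x]) = act φ p ++ [rho (φ p) x] := by
  rw [act_append, act_cons, act_nil, List.append_nil]

theorem act_length (φ : List A → L) (p : List A) : (act φ p).length = p.length := by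
  induction p generalizing φ with
  | nil => rfl
  | cons x p ih => rw [act_cons, List.length_cons, ih, List.length_cons]

theorem act_tree (φ : List A → L) : IsTree (act φ) := by
  refine ⟨act_length φ, ?_⟩
  rintro u _ ⟨q, rfl⟩
  rw [act_append]
  exact List.prefix_append _ _

theorem act_take (φ : List A → L) (p : List A) (i : ℕ) :
    (act φ p).take i = act φ (p.take i) := by
  have h1 : act φ (p.take i) <+: act φ p := (act_tree φ).2 _ _ (List.take_prefix _ _)
  refine pre_eq (List.take_prefix _ _) h1 ?_
  rw [List.length_take, act_length, act_length, List.length_take]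

/-- the portrait of a product -/
def mulP (φ ψ : List A → L) : List A → L := fun p => φ (act ψ p) * ψ p

theorem act_mul (φ ψ : List A → L) : act φ * act ψ = act (mulP φ ψ) := by
  ext p : 1
  rw [mul_apply]
  induction p generalizing φ ψ with
  | nil => rfl
  | cons x q ih =>
    rw [act_cons, act_cons, ih, act_cons]
    rfl

theorem invP_act (φ : List A → L) (p : List A) : invP φ (act φ p) = (φ p)⁻¹ := by
  induction p generalizing φ with
  | nil => rfl
  | cons x p ih =>
    rw [act_cons]
    simp only [invP, rho_apply_inv]
    rw [ih]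

theorem act_one : act (fun _ => 1) = 1 := by
  ext p : 1
  rw [one_apply]
  induction p with
  | nil => rfl
  | cons x q ih => rw [act_cons, ih, rho_one]; rfl

theorem act_fix {φ : List A → L} {u : List A} (h : ∀ i < u.length, φ (u.take i) = 1) :
    act φ u = u := by
  induction u generalizing φ with
  | nil => rfl
  | cons x q ih =>
    rw [act_cons]
    have h0 := h 0 (by simp)
    simp only [List.take_zero] at h0
    rw [h0, ih, rho_one]
    · rfl
    · intro i hi
      exact h (i + 1) (by simpa using hi)

theorem act_congr {φ ψ : List A → L} {u : List A} (h : ∀ i < u.length, φ (u.take i) = ψ (u.take i)) :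
    act φ u = act ψ u := by
  induction u generalizing φ ψ with
  | nil => rfl
  | cons x q ih =>
    rw [act_cons, act_cons]
    have h0 := h 0 (by simp)
    simp only [List.take_zero] at h0
    rw [h0, ih]
    intro i hi
    exact h (i + 1) (by simpa using hi)

theorem label_one {φ : List A → L} {p : List A} (h : ∀ x, act φ (p ++ [x]) = p ++ [x]) :
    φ p = 1 := by
  apply rho_inj
  intro x
  have h1 := h x
  rw [act_snoc] at h1
  have h2 := List.append_inj' h1 rfl
  simpa using h2.2

/-! ### The two signs -/

/-- the sign of the first component -/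
def eps : L →* ℤˣ := (Equiv.Perm.sign (α := Fin 3)).comp (MonoidHom.fst _ _)

/-- the sign of the second component -/
def chi : L →* ℤˣ := (Equiv.Perm.sign (α := Fin 4)).comp (MonoidHom.snd _ _)

/-- the value prescribed at `v` by the labels of the proper prefixes of `v` -/
def val (lam : ℕ → Bool) (φ : List A → L) (v : List A) : ℤˣ :=
  ∏ i ∈ Finset.range v.length, if lam (v.length - 1 - i) then chi (φ (v.take i)) else 1

/-- the condition defining the group `U lam` -/
def Cond (lam : ℕ → Bool) (φ : List A → L) : Prop := ∀ v, eps (φ v) = val lam φ v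

theorem val_mulP (lam : ℕ → Bool) (φ ψ : List A → L) (v : List A) :
    val lam (mulP φ ψ) v = val lam φ (act ψ v) * val lam ψ v := by
  unfold val
  rw [act_length, ← Finset.prod_mul_distrib]
  refine Finset.prod_congr rfl fun i _ => ?_
  split_ifs
  · rw [mulP, map_mul, act_take]
  · rw [mul_one]

theorem Cond.mul {lam : ℕ → Bool} {φ ψ : List A → L} (hφ : Cond lam φ) (hψ : Cond lam ψ) :
    Cond lam (mulP φ ψ) := by
  intro v
  rw [val_mulP, mulP, map_mul, hφ, hψ]

theorem val_invP (lam : ℕ → Bool) (φ : List A → L) (v : List A) :
    val lam (invP φ) (act φ v) = (val lam φ v)⁻¹ := by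
  unfold val
  rw [act_length, ← Finset.prod_inv_distrib]
  refine Finset.prod_congr rfl fun i _ => ?_
  split_ifs
  · rw [act_take, invP_act, map_inv]
  · rw [inv_one]

theorem Cond.inv {lam : ℕ → Bool} {φ : List A → L} (hφ : Cond lam φ) : Cond lam (invP φ) := by
  intro v
  obtain ⟨u, rfl⟩ := (act φ).surjective v
  rw [val_invP, invP_act, map_inv, hφ]

theorem val_eq_one {lam : ℕ → Bool} {φ : List A → L} {v : List A}
    (h : ∀ i < v.length, chi (φ (v.take i)) = 1) : val lam φ v = 1 := by
  unfold val
  refine Finset.prod_eq_one fun i hi => ?_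
  rw [h i (Finset.mem_range.1 hi)]
  simp

theorem Cond.one (lam : ℕ → Bool) : Cond lam (fun _ => 1) := by
  intro v
  rw [val_eq_one, map_one]
  intro i _
  rw [map_one]

/-- **The group `U lam`.** -/
def U (lam : ℕ → Bool) : Subgroup (Equiv.Perm (List A)) where
  carrier := {g | ∃ φ, Cond lam φ ∧ act φ = g}
  mul_mem' := by
    rintro _ _ ⟨φ, hφ, rfl⟩ ⟨ψ, hψ, rfl⟩
    exact ⟨_, hφ.mul hψ, (act_mul φ ψ).symm⟩
  one_mem' := ⟨_, Cond.one lam, act_one⟩
  inv_mem' := by
    rintro _ ⟨φ, hφ, rfl⟩
    exact ⟨_, hφ.inv, (act_inv φ).symm⟩

theorem mem_U {lam : ℕ → Bool} {g : Equiv.Perm (List A)} :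
    g ∈ U lam ↔ ∃ φ, Cond lam φ ∧ act φ = g := Iff.rfl

/-- the standard label with given first sign -/
def base (e : ℤˣ) : L := if e = 1 then 1 else (Equiv.swap 0 1, 1)

theorem eps_base (e : ℤˣ) : eps (base e) = e := by
  rcases Int.units_eq_one_or e with rfl | rfl
  · simp [base]
  · simp [base, eps]

theorem chi_base (e : ℤˣ) : chi (base e) = 1 := by
  rcases Int.units_eq_one_or e with rfl | rfl
  · simp [base]
  · simp [base, chi]

theorem base_one : base 1 = 1 := by simp [base]

/-- the portrait with label `l` at `v`, standard labels below `v`, trivial elsewhere -/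
def spinP (lam : ℕ → Bool) (v : List A) (l : L) (p : List A) : L :=
  if p = v then l else if v <+: p ∧ lam (p.length - 1 - v.length) = true then base (chi l) else 1

theorem spinP_self (lam : ℕ → Bool) (v : List A) (l : L) : spinP lam v l v = l := by
  simp [spinP]

theorem spinP_of_not {lam : ℕ → Bool} {v : List A} {l : L} {p : List A} (h : ¬ v <+: p) :
    spinP lam v l p = 1 := by
  have : p ≠ v := by
    rintro rfl
    exact h (List.prefix_refl _)
  simp [spinP, this, h]

theorem chi_spinP {lam : ℕ → Bool} {v : List A} {l : L} {p : List A} (h : p ≠ v) :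
    chi (spinP lam v l p) = 1 := by
  unfold spinP
  rw [if_neg h]
  split_ifs
  · exact chi_base _
  · exact map_one _

theorem cond_spinP (lam : ℕ → Bool) (v : List A) {l : L} (hl : eps l = 1) :
    Cond lam (spinP lam v l) := by
  intro p
  by_cases hpv : v <+: p ∧ p ≠ v
  · obtain ⟨h1, h2⟩ := hpv
    have hlen : v.length < p.length := by
      rcases lt_or_eq_of_le h1.length_le with h | h
      · exact h
      · exact absurd (h1.eq_of_length h).symm h2
    have hv : p.take v.length = v := (List.prefix_iff_eq_take.1 h1).symm
    unfold val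
    rw [Finset.prod_eq_single v.length]
    · rw [hv, spinP_self]
      unfold spinP
      rw [if_neg h2]
      by_cases hlam : lam (p.length - 1 - v.length) = true
      · simp [h1, hlam, eps_base]
      · simp [hlam]
    · intro i _ hi
      have : p.take i ≠ v := by
        intro h
        have h3 := congrArg List.length h
        rw [List.length_take] at h3
        rename_i hi'
        have := Finset.mem_range.1 hi'
        omega
      rw [chi_spinP this]
      simp
    · intro h
      exact absurd (Finset.mem_range.2 hlen) h
  · have hval : val lam (spinP lam v l) p = 1 := by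
      apply val_eq_one
      intro i hi
      apply chi_spinP
      intro h
      apply hpv
      refine ⟨h ▸ List.take_prefix _ _, ?_⟩
      rintro rfl
      have h3 := congrArg List.length h
      rw [List.length_take] at h3
      omega
    rw [hval]
    by_cases h : v <+: p
    · have h2 : p = v := by
        by_contra h2
        exact hpv ⟨h, h2⟩
      rw [h2, spinP_self, hl]
    · rw [spinP_of_not h, map_one]

/-- the corresponding element of the group -/
def spin (lam : ℕ → Bool) (v : List A) (l : L) : Equiv.Perm (List A) := act (spinP lam v l)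

theorem spin_mem (lam : ℕ → Bool) (v : List A) {l : L} (hl : eps l = 1) : spin lam v l ∈ U lam :=
  ⟨_, cond_spinP lam v hl, rfl⟩

theorem spin_off (lam : ℕ → Bool) (v : List A) (l : L) : Off v (spin lam v l) := by
  intro u hu
  apply act_fix
  intro i _
  apply spinP_of_not
  intro h
  exact hu (h.trans (List.take_prefix _ _))

theorem spin_child (lam : ℕ → Bool) (v : List A) (l : L) (x : A) :
    spin lam v l (v ++ [x]) = v ++ [rho l x] := by
  have h1 : act (spinP lam v l) v = v := (spin_off lam v l).fix (act_tree _)
  rw [spin, act_snoc, spinP_self, h1]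

end Pool.Agent.H335.BR
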