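import Pool.Agent.H335.BR.Basic

/-!
# Isomorphisms between open subgroups of branch groups respect the tree structure
-/

set_option autoImplicit false

namespace Pool.Agent.H335.BR

open Equiv.Perm

variable {X : Type}

/-- `Γ` is the graph of an isomorphism between open subgroups of `U` and `U'` -/
structure Corr (U U' : Subgroup (Equiv.Perm (List X)))
    (Γ : Subgroup (Equiv.Perm (List X) × Equiv.Perm (List X))) : Prop where
  left : ∀ {a b}, (a, b) ∈ Γ → a ∈ U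
  right : ∀ {a b}, (a, b) ∈ Γ → b ∈ U'
  inj : ∀ {b}, ((1 : Equiv.Perm (List X)), b) ∈ Γ → b = 1
  inj' : ∀ {a}, (a, (1 : Equiv.Perm (List X))) ∈ Γ → a = 1
  c1 : ∀ n, ∃ m, ∀ b ∈ U', St m b → ∃ a, St n a ∧ (a, b) ∈ Γ
  c2 : ∀ m, ∃ n, ∀ a ∈ U, St n a → ∃ b, St m b ∧ (a, b) ∈ Γ

/-- the inverse correspondence -/
def swp (Γ : Subgroup (Equiv.Perm (List X) × Equiv.Perm (List X))) :
    Subgroup (Equiv.Perm (List X) × Equiv.Perm (List X)) where
  carrier := {p | (p.2, p.1) ∈ Γ}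
  mul_mem' := fun h1 h2 => Γ.mul_mem h1 h2
  one_mem' := Γ.one_mem
  inv_mem' := fun h => Γ.inv_mem h

theorem mem_swp {Γ : Subgroup (Equiv.Perm (List X) × Equiv.Perm (List X))}
    {a b : Equiv.Perm (List X)} : (a, b) ∈ swp Γ ↔ (b, a) ∈ Γ := Iff.rfl

theorem Corr.symm {U U' : Subgroup (Equiv.Perm (List X))}
    {Γ : Subgroup (Equiv.Perm (List X) × Equiv.Perm (List X))} (h : Corr U U' Γ) :
    Corr U' U (swp Γ) where
  left := fun hab => h.right hab
  right := fun hab => h.left hab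
  inj := fun hb => h.inj' hb
  inj' := fun ha => h.inj ha
  c1 := h.c2
  c2 := h.c1

/-- the image of a subgroup -/
def img (Γ : Subgroup (Equiv.Perm (List X) × Equiv.Perm (List X)))
    (E : Subgroup (Equiv.Perm (List X))) : Subgroup (Equiv.Perm (List X)) where
  carrier := {b | ∃ a ∈ E, (a, b) ∈ Γ}
  mul_mem' := fun ⟨a, ha, h⟩ ⟨a', ha', h'⟩ => ⟨a * a', E.mul_mem ha ha', Γ.mul_mem h h'⟩
  one_mem' := ⟨1, E.one_mem, Γ.one_mem⟩
  inv_mem' := fun ⟨a, ha, h⟩ => ⟨a⁻¹, E.inv_mem ha, Γ.inv_mem h⟩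

theorem mem_img {Γ : Subgroup (Equiv.Perm (List X) × Equiv.Perm (List X))}
    {E : Subgroup (Equiv.Perm (List X))} {b : Equiv.Perm (List X)} :
    b ∈ img Γ E ↔ ∃ a ∈ E, (a, b) ∈ Γ := Iff.rfl

/-- direct decomposition of a level stabiliser -/
structure Split (U : Subgroup (Equiv.Perm (List X))) (n : ℕ)
    (E₁ E₂ : Subgroup (Equiv.Perm (List X))) : Prop where
  conj : ∀ c ∈ U, St n c → ∀ a ∈ E₁, c * a * c⁻¹ ∈ E₁
  comm : ∀ a ∈ E₁, ∀ b ∈ E₂, a * b = b * a
  dec : ∀ c ∈ U, St n c → ∃ c₁ ∈ E₁, ∃ c₂ ∈ E₂, c = c₁ * c₂ ∧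
    ∀ n', n ≤ n' → St n' c → St n' c₁
  le : E₁ ≤ U
  st : ∀ a ∈ E₁, St n a

section

variable {U U' : Subgroup (Equiv.Perm (List X))}
  {Γ : Subgroup (Equiv.Perm (List X) × Equiv.Perm (List X))}

theorem split_R (hU : Nice U) (v : List X) : Split U v.length (R U v) (Kv U v) where
  conj := by
    intro c hc hs a ha
    have := hU.R_conj hc ha
    rwa [hs v rfl] at this
  comm := fun a ha b hb => ha.2.comm_on hb.2.2 (hU.tree b hb.1)
  dec := by
    intro c hc hs
    obtain ⟨h, hh, ho, hn⟩ := hU.split c hc v hs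
    have hst : St v.length h := ho.st (hU.tree h hh) le_rfl
    refine ⟨h, ⟨hh, ho⟩, h⁻¹ * c, ⟨U.mul_mem (U.inv_mem hh) hc, hst.inv.mul hs, hn⟩, by group,
      fun n' _ hc' => ?_⟩
    intro u hu
    by_cases huv : v <+: u
    · have h1 := hn u huv
      rw [mul_apply, hc' u hu] at h1
      conv_lhs => rw [← h1]
      exact ap_inv h u
    · exact ho u huv
  le := fun a ha => ha.1
  st := fun a ha => ha.2.st (hU.tree a ha.1) le_rfl

theorem split_K (hU : Nice U) (v : List X) : Split U v.length (Kv U v) (R U v) where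
  conj := by
    intro c hc hs a ha
    refine ⟨U.mul_mem (U.mul_mem hc ha.1) (U.inv_mem hc), ha.2.1.conj (hU.tree c hc), ?_⟩
    have := ha.2.2.conj (hU.tree c hc)
    rwa [hs v rfl] at this
  comm := fun a ha b hb => (hb.2.comm_on ha.2.2 (hU.tree a ha.1)).symm
  dec := by
    intro c hc hs
    obtain ⟨c₁, h1, c₂, h2, h3, h4⟩ := (split_R hU v).dec c hc hs
    refine ⟨c₂, h2, c₁, h1, ?_, fun n' hn' hc' => ?_⟩
    · rw [h3]
      exact (split_R hU v).comm _ h1 _ h2
    · have : c₂ = c₁⁻¹ * c := by rw [h3]; group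
      rw [this]
      exact (h4 n' hn' hc').inv.mul hc'
  le := fun a ha => ha.1
  st := fun a ha => ha.2.1

variable (hU : Nice U) (hU' : Nice U') (hc : Corr U U' Γ)

include hc in
theorem Corr.uniq {a a' b : Equiv.Perm (List X)} (h : (a, b) ∈ Γ) (h' : (a', b) ∈ Γ) :
    a = a' := by
  have h1 : (a * a'⁻¹, b * b⁻¹) ∈ Γ := Γ.mul_mem h (Γ.inv_mem h')
  rw [mul_inv_cancel] at h1
  exact mul_inv_eq_one.1 (hc.inj' h1)

include hc in
theorem Corr.uniq' {a b b' : Equiv.Perm (List X)} (h : (a, b) ∈ Γ) (h' : (a, b') ∈ Γ) :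
    b = b' := by
  have h1 : (a * a⁻¹, b * b'⁻¹) ∈ Γ := Γ.mul_mem h (Γ.inv_mem h')
  rw [mul_inv_cancel] at h1
  exact mul_inv_eq_one.1 (hc.inj h1)

include hc in
theorem Corr.comm {a a' b b' : Equiv.Perm (List X)} (h : (a, b) ∈ Γ) (h' : (a', b') ∈ Γ)
    (hcm : a * a' = a' * a) : b * b' = b' * b := by
  have h1 : (a * a', b * b') ∈ Γ := Γ.mul_mem h h'
  have h2 : (a' * a, b' * b) ∈ Γ := Γ.mul_mem h' h
  rw [hcm] at h1
  exact hc.uniq' h1 h2

variable [Nontrivial X]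

include hU hU' hc in
/-- The factor lemma. -/
theorem triv_on {n m : ℕ} {E₁ E₂ : Subgroup (Equiv.Perm (List X))} (hs : Split U n E₁ E₂)
    (hm : ∀ b ∈ U', St m b → ∃ a, St n a ∧ (a, b) ∈ Γ) {w : List X} (hw : w.length = m)
    (h : ∀ r ∈ R U' w, r ∈ img Γ E₁ → r = 1) : ∀ s ∈ img Γ E₁, On w s := by
  have hX : Nonempty X := inferInstance
  -- Step A
  have stepA : ∀ w' : List X, w'.length = m → (∀ r ∈ R U' w', r ∈ img Γ E₁ → r = 1) →
      ∀ b ∈ img Γ E₁, St m b → On w' b := by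
    rintro w' hw' h' b ⟨a, ha, hab⟩ hb
    have hbU := hc.right hab
    apply hU'.on_of_comm (hU'.tree b hbU)
    intro r hr
    obtain ⟨c, hc1, hcr⟩ := hm r hr.1 (hr.2.st (hU'.tree r hr.1) hw'.ge)
    have h1 : (a * (c * a⁻¹ * c⁻¹), b * (r * b⁻¹ * r⁻¹)) ∈ Γ :=
      Γ.mul_mem hab (Γ.mul_mem (Γ.mul_mem hcr (Γ.inv_mem hab)) (Γ.inv_mem hcr))
    have h2 : a * (c * a⁻¹ * c⁻¹) ∈ E₁ :=
      E₁.mul_mem ha (hs.conj c (hc.left hcr) hc1 _ (E₁.inv_mem ha))
    have h3 : b * (r * b⁻¹ * r⁻¹) ∈ R U' w' := by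
      have h4 := hU'.R_conj hbU hr
      rw [hb w' hw'] at h4
      have e : b * (r * b⁻¹ * r⁻¹) = (b * r * b⁻¹) * r⁻¹ := by group
      rw [e]
      exact (R U' w').mul_mem h4 ((R U' w').inv_mem hr)
    have h5 := h' _ h3 ⟨_, h2, h1⟩
    calc b * r = (b * (r * b⁻¹ * r⁻¹)) * r * b := by group
      _ = r * b := by rw [h5, one_mul]
  rintro s ⟨a, ha, has⟩
  have hsU := hc.right has
  have hst := hU'.tree s hsU
  by_contra hne
  have hne' : ∃ u, w <+: u ∧ s u ≠ u := by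
    by_contra h'
    push Not at h'
    exact hne h'
  obtain ⟨u, hwu, hsu⟩ := hne'
  obtain ⟨n1, hn1⟩ := hc.c2 m
  obtain ⟨m2, hm2⟩ := hc.c1 (max n n1)
  obtain ⟨u1, huu, hl⟩ := exists_ext u (max u.length m2) (le_max_left _ _)
  have hsu1 : s u1 ≠ u1 := hst.move_ext huu hsu
  have hwu1 : w <+: u1 := hwu.trans huu
  obtain ⟨r, hr, hr1⟩ := hU'.exists_ne u1
  have hrt := hU'.tree r hr.1
  obtain ⟨c, hcs, hcr⟩ := hm2 r hr.1 (hr.2.st hrt (by rw [hl]; exact le_max_right _ _))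
  have hcU := hc.left hcr
  have hct := hU.tree c hcU
  obtain ⟨c₁, hc₁, c₂, hc₂, hcc, hcst⟩ := hs.dec c hcU (hcs.mono (le_max_left _ _) hct)
  have hc₁st : St n1 c₁ :=
    (hcst _ (le_max_left _ _) hcs).mono (le_max_right _ _) (hU.tree _ (hs.le hc₁))
  obtain ⟨b₁, hb₁s, hb₁⟩ := hn1 c₁ (hs.le hc₁) hc₁st
  -- `b₂`
  have hb₂ : (c₂, b₁⁻¹ * r) ∈ Γ := by
    have h1 : (c₁⁻¹ * c, b₁⁻¹ * r) ∈ Γ := Γ.mul_mem (Γ.inv_mem hb₁) hcr
    have e : c₁⁻¹ * c = c₂ := by rw [hcc]; group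
    rwa [e] at h1
  have hcomm : s * (b₁⁻¹ * r) = (b₁⁻¹ * r) * s := hc.comm has hb₂ (hs.comm a ha c₂ hc₂)
  have hb₁i : b₁ ∈ img Γ E₁ := ⟨c₁, hc₁, hb₁⟩
  have on1 : On w b₁ := stepA w hw h b₁ hb₁i hb₁s
  have on2 : On (s w) b₁ := by
    refine stepA (s w) (by rw [hst.1, hw]) (fun r' hr' hri => ?_) b₁ hb₁i hb₁s
    have h1 := hU'.R_conj (U'.inv_mem hsU) hr'
    rw [inv_ap] at h1
    have h2 : s⁻¹ * r' * s⁻¹⁻¹ ∈ img Γ E₁ :=
      (img Γ E₁).mul_mem ((img Γ E₁).mul_mem ((img Γ E₁).inv_mem ⟨a, ha, has⟩) hri)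
        ((img Γ E₁).inv_mem ((img Γ E₁).inv_mem ⟨a, ha, has⟩))
    have h3 := h _ h1 h2
    rw [inv_inv] at h3
    calc r' = s * (s⁻¹ * r' * s) * s⁻¹ := by group
      _ = 1 := by rw [h3]; group
  obtain ⟨t, ht⟩ := exists_move hr1
  have hut : u1 <+: t := by
    by_contra h'
    exact ht (hr.2 t h')
  have e1 : (b₁⁻¹ * r) t = r t := by
    rw [mul_apply]
    exact on1.inv _ (hwu1.trans (hr.2.pre hut))
  have e2 : (b₁⁻¹ * r) (s t) = s t := by
    have h1 : ¬ u1 <+: s t := by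
      intro h'
      have h2 : s u1 <+: s t := hst.2 _ _ hut
      exact hsu1 (pre_eq h2 h' (hst.1 _))
    rw [mul_apply, hr.2 _ h1]
    exact on2.inv _ (hst.2 _ _ (hwu1.trans hut))
  have e3 := congrArg (fun f => f t) hcomm
  simp only [mul_apply] at e3
  rw [mul_apply] at e1 e2
  rw [e1, e2] at e3
  exact ht (s.injective e3)

include hU hU' hc in
/-- The dichotomy. -/
theorem dich {v : List X} (hv : ∀ a ∈ U, St v.length a → ∃ b, (a, b) ∈ Γ) :
    ∃ m, ∀ w : List X, m ≤ w.length →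
    (∀ s ∈ img Γ (R U v), On w s) ∨ R U' w ≤ img Γ (R U v) := by
  have hX : Nonempty X := inferInstance
  obtain ⟨m, hm⟩ := hc.c1 v.length
  have key : ∀ w : List X, w.length = m →
      (∀ s ∈ img Γ (R U v), On w s) ∨ (∀ s ∈ img Γ (Kv U v), On w s) := by
    intro w hw
    by_cases h : ∀ r ∈ R U' w, r ∈ img Γ (R U v) → r = 1
    · exact Or.inl (triv_on hU hU' hc (split_R hU v) hm hw h)
    · right
      push Not at h
      obtain ⟨n₁, hn₁, hn₁', hne⟩ := h
      apply triv_on hU hU' hc (split_K hU v) hm hw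
      intro n₂ hn₂ hn₂'
      -- two commuting normal subgroups
      have hnorm : ∀ E₁ E₂ : Subgroup (Equiv.Perm (List X)), Split U v.length E₁ E₂ →
          ∀ r ∈ R U' w, ∀ a ∈ R U' w ⊓ img Γ E₁, r * a * r⁻¹ ∈ R U' w ⊓ img Γ E₁ := by
        rintro E₁ E₂ hs r hr a ⟨ha, a', ha', haa⟩
        refine ⟨(R U' w).mul_mem ((R U' w).mul_mem hr ha) ((R U' w).inv_mem hr), ?_⟩
        obtain ⟨c, hc1, hcr⟩ := hm r hr.1 (hr.2.st (hU'.tree r hr.1) hw.ge)
        exact ⟨c * a' * c⁻¹, hs.conj c (hc.left hcr) hc1 _ ha',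
          Γ.mul_mem (Γ.mul_mem hcr haa) (Γ.inv_mem hcr)⟩
      refine hU'.no_comm (N₁ := R U' w ⊓ img Γ (R U v)) (N₂ := R U' w ⊓ img Γ (Kv U v))
        inf_le_left inf_le_left (hnorm _ _ (split_R hU v)) (hnorm _ _ (split_K hU v)) ?_
        ⟨hn₁, hn₁'⟩ hne ⟨hn₂, hn₂'⟩
      rintro a ⟨-, a', ha', haa⟩ b ⟨-, b', hb', hbb⟩
      exact hc.comm haa hbb ((split_R hU v).comm _ ha' _ hb')
  have key2 : ∀ w : List X, w.length = m →
      (∀ s ∈ img Γ (R U v), On w s) ∨ R U' w ≤ img Γ (R U v) := by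
    intro w hw
    by_cases h1 : ∀ s ∈ img Γ (R U v), On w s
    · exact Or.inl h1
    · right
      have h2 := (key w hw).resolve_left h1
      intro r hr
      obtain ⟨c, hcs, hcr⟩ := hm r hr.1 (hr.2.st (hU'.tree r hr.1) hw.ge)
      obtain ⟨c₁, hc₁, c₂, hc₂, hcc, -⟩ := (split_R hU v).dec c (hc.left hcr) hcs
      obtain ⟨b₁, hb₁⟩ := hv c₁ hc₁.1 (hc₁.2.st (hU.tree _ hc₁.1) le_rfl)
      have hb₂ : (c₂, b₁⁻¹ * r) ∈ Γ := by
        have h1 : (c₁⁻¹ * c, b₁⁻¹ * r) ∈ Γ := Γ.mul_mem (Γ.inv_mem hb₁) hcr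
        have e : c₁⁻¹ * c = c₂ := by rw [hcc]; group
        rwa [e] at h1
      have hb₁i : b₁ ∈ img Γ (R U v) := ⟨c₁, hc₁, hb₁⟩
      have hb₂i : b₁⁻¹ * r ∈ img Γ (Kv U v) := ⟨c₂, hc₂, hb₂⟩
      have hb₂t := hU'.tree _ (hc.right hb₂)
      -- `b₂` is trivial
      have hone : b₁⁻¹ * r = 1 := by
        ext t : 1
        rw [one_apply]
        -- enough for long words
        have hlong : ∀ t : List X, m ≤ t.length → (b₁⁻¹ * r) t = t := by
          intro t ht
          obtain ⟨w', hw't, hw'⟩ := exists_take ht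
          rcases key w' hw' with h3 | h3
          · by_cases hww : w' = w
            · subst hww
              exact absurd h3 h1
            · have hrt : r t = t := by
                apply hr.2
                intro hwt
                exact hww (pre_eq hw't hwt (by rw [hw', hw]))
              rw [mul_apply, hrt]
              exact (h3 b₁ hb₁i).inv t hw't
          · exact h3 _ hb₂i t hw't
        obtain ⟨t', htt, hl⟩ := exists_ext t (max t.length m) (le_max_left _ _)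
        exact hb₂t.fix_pre htt (hlong t' (by rw [hl]; exact le_max_right _ _))
      have : r = b₁ := (inv_mul_eq_one.1 hone).symm
      rw [this]
      exact hb₁i
  refine ⟨m, fun w hw => ?_⟩
  obtain ⟨w0, hw0, hl⟩ := exists_take hw
  rcases key2 w0 hl with h | h
  · exact Or.inl fun s hs => (h s hs).mono hw0
  · exact Or.inr ((R_mono hw0).trans h)

/-- `v` is deep enough for its rigid stabiliser to lie in the domain of the correspondence -/
def Dom (U : Subgroup (Equiv.Perm (List X)))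
    (Γ : Subgroup (Equiv.Perm (List X) × Equiv.Perm (List X))) (n : ℕ) : Prop :=
  ∀ a ∈ U, St n a → ∃ b, (a, b) ∈ Γ

omit [Nontrivial X] in
theorem Dom.mono [Nonempty X] (hU : Nice U) {m n : ℕ} (hmn : n ≤ m) (h : Dom U Γ n) :
    Dom U Γ m := fun a ha hs => h a ha (hs.mono hmn (hU.tree a ha))

/-- the image of the rigid stabiliser of `v` is supported on the cone of `w` -/
def Lies (U : Subgroup (Equiv.Perm (List X)))
    (Γ : Subgroup (Equiv.Perm (List X) × Equiv.Perm (List X))) (v w : List X) : Prop :=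
  ∀ s ∈ img Γ (R U v), Off w s

/-- `w` is the deepest vertex with this property -/
def Top (U : Subgroup (Equiv.Perm (List X)))
    (Γ : Subgroup (Equiv.Perm (List X) × Equiv.Perm (List X))) (v w : List X) : Prop :=
  Lies U Γ v w ∧ ∀ w', Lies U Γ v w' → w' <+: w

omit [Nontrivial X] in
theorem Top.unique {v w w' : List X} (h : Top U Γ v w) (h' : Top U Γ v w') : w = w' := by
  have h1 := h'.2 _ h.1
  have h2 := h.2 _ h'.1
  exact h1.eq_of_length (le_antisymm h1.length_le h2.length_le)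

include hU hc in
theorem img_ne {v : List X} (hv : Dom U Γ v.length) : ∃ s ∈ img Γ (R U v), s ≠ 1 := by
  obtain ⟨a, ha, ha1⟩ := hU.exists_ne v
  obtain ⟨b, hb⟩ := hv a ha.1 (ha.2.st (hU.tree _ ha.1) le_rfl)
  refine ⟨b, ⟨a, ha, hb⟩, ?_⟩
  rintro rfl
  exact ha1 (hc.inj' hb)

include hU hc in
theorem dom_R {v : List X} (hv : Dom U Γ v.length) {a : Equiv.Perm (List X)} (ha : a ∈ R U v) :
    ∃ b ∈ img Γ (R U v), (a, b) ∈ Γ := by
  obtain ⟨b, hb⟩ := hv a ha.1 (ha.2.st (hU.tree _ ha.1) le_rfl)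
  exact ⟨b, ⟨a, ha, hb⟩, hb⟩

include hU hU' hc in
theorem small [Finite X] (m : ℕ) (hm : ∀ b ∈ U', St m b → ∃ a, (a, b) ∈ Γ) :
    ∃ n, ∀ v : List X, n ≤ v.length → Dom U Γ v.length →
      ∃ w : List X, w.length = m ∧ Lies U Γ v w := by
  classical
  have hX : Nonempty X := inferInstance
  have h1 : ∀ w : List X, ∃ n, w.length = m → ∀ v : List X, n ≤ v.length →
      (∀ s ∈ img (swp Γ) (R U' w), On v s) ∨ R U v ≤ img (swp Γ) (R U' w) := by
    intro w
    by_cases hw : w.length = m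
    · obtain ⟨n, hn⟩ := dich hU' hU hc.symm (v := w) (by rw [hw]; exact hm)
      exact ⟨n, fun _ => hn⟩
    · exact ⟨0, fun h => absurd h hw⟩
  choose f hf using h1
  have hfin : {w : List X | w.length = m}.Finite := List.finite_length_eq X m
  obtain ⟨N, hN⟩ := (hfin.image f).bddAbove
  refine ⟨N, fun v hv hd => ?_⟩
  by_contra hcon
  push Not at hcon
  -- the second alternative never holds
  have h2 : ∀ w : List X, w.length = m → ∀ s ∈ img (swp Γ) (R U' w), On v s := by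
    intro w hw
    have hfw : f w ≤ v.length := (hN ⟨w, hw, rfl⟩).trans hv
    rcases hf w hw v hfw with h | h
    · exact h
    · exfalso
      apply hcon w hw
      rintro s ⟨a, ha, has⟩
      obtain ⟨b, hb, hba⟩ := h ha
      have : b = s := hc.uniq' hba has
      rw [← this]
      exact hb.2
  obtain ⟨b, ⟨a, ha, hab⟩, hb1⟩ := img_ne hU hc hd
  have hbt := hU'.tree b (hc.right hab)
  apply hb1
  have h3 : ∀ w : List X, w.length = m → On w b := by
    intro w hw
    apply hU'.on_of_comm hbt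
    intro r hr
    obtain ⟨a', ha'⟩ := hm r hr.1 (hr.2.st (hU'.tree r hr.1) hw.ge)
    have h4 : On v a' := h2 w hw a' ⟨r, hr, ha'⟩
    exact hc.comm hab ha' (ha.2.comm_on h4 (hU.tree _ (hc.left ha')))
  ext t : 1
  rw [one_apply]
  obtain ⟨t', htt, hl⟩ := exists_ext t (max t.length m) (le_max_left _ _)
  obtain ⟨w, hw, hwl⟩ := exists_take (u := t') (n := m) (by rw [hl]; exact le_max_right _ _)
  exact hbt.fix_pre htt (h3 w hwl t' hw)

include hU hU' hc in
theorem full {v : List X} (hv : Dom U Γ v.length) {p : List X}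
    (hp : ∃ s ∈ img Γ (R U v), ¬ On p s) :
    ∃ w : List X, p <+: w ∧ R U' w ≤ img Γ (R U v) := by
  have hX : Nonempty X := inferInstance
  obtain ⟨m, hm⟩ := dich hU hU' hc hv
  by_contra hcon
  push Not at hcon
  obtain ⟨s, hs, hne⟩ := hp
  apply hne
  have hst : IsTree s := by
    obtain ⟨a, -, ha⟩ := hs
    exact hU'.tree s (hc.right ha)
  intro u hu
  obtain ⟨u', huu, hl⟩ := exists_ext u (max u.length m) (le_max_left _ _)
  rcases hm u' (by rw [hl]; exact le_max_right _ _) with h | h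
  · exact hst.fix_pre huu ((h s hs).fix)
  · exact absurd h (hcon u' (hu.trans huu))

include hU hU' hc in
theorem pull {v : List X} (hv : Dom U Γ v.length) {p : List X}
    (hp : ∃ s ∈ img Γ (R U v), ¬ On p s) {m N : ℕ} (hpm : p.length ≤ m) (hvN : v.length ≤ N)
    (hN : ∀ v' : List X, v'.length = N → ∃ w : List X, w.length = m ∧ Lies U Γ v' w) :
    ∃ v' w : List X, v <+: v' ∧ v'.length = N ∧ w.length = m ∧ p <+: w ∧ Lies U Γ v' w := by
  have hX : Nonempty X := inferInstance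
  by_contra hcon
  push Not at hcon
  obtain ⟨w', hpw, hw'⟩ := full hU hU' hc hv hp
  obtain ⟨m2, hm2⟩ := hc.c1 N
  obtain ⟨u', huu, hl⟩ := exists_ext w' (max w'.length (max m2 m)) (le_max_left _ _)
  obtain ⟨r, hr, hr1⟩ := hU'.exists_ne u'
  have hrt := hU'.tree r hr.1
  obtain ⟨a, haN, har⟩ := hm2 r hr.1 (hr.2.st hrt (by
    rw [hl]; exact (le_max_left _ _).trans (le_max_right _ _)))
  obtain ⟨a0, ha0, ha0r⟩ := hw' (R_mono huu hr)
  have haa : a = a0 := hc.uniq har ha0r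
  subst haa
  have hat := hU.tree a ha0.1
  have hmu : m ≤ u'.length := by rw [hl]; exact (le_max_right _ _).trans (le_max_right _ _)
  have hpu : p <+: u' := hpw.trans huu
  -- `a` is trivial on all the cones at level `N` below `v`
  have hon : ∀ v' : List X, v <+: v' → v'.length = N → On v' a := by
    intro v' hvv' hv'N
    obtain ⟨w, hwm, hlw⟩ := hN v' hv'N
    have hpw' : ¬ p <+: w := fun h => hcon v' w hvv' hv'N hwm h hlw
    apply hU.on_of_comm hat
    intro c hcR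
    obtain ⟨d, hd, hcd⟩ := dom_R hU hc (v := v') (hv.mono hU (by rw [hv'N]; exact hvN)) hcR
    have h1 : Off w d := hlw d hd
    have hdt := hU'.tree d (hc.right hcd)
    have n1 : ¬ u' <+: w := fun h => hpw' (hpu.trans h)
    have n2 : ¬ w <+: u' := by
      intro h
      exact hpw' (pre_of_le hpu h (by rw [hwm]; exact hpm))
    exact hc.symm.comm har hcd (hr.2.comm h1 n1 n2 hdt)
  apply hr1
  have ha1 : a = 1 := by
    ext t : 1
    rw [one_apply]
    by_cases hvt : v <+: t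
    · obtain ⟨t', htt, hl'⟩ := exists_ext t (max t.length N) (le_max_left _ _)
      obtain ⟨v', hv', hvl⟩ := exists_take (u := t') (n := N) (by rw [hl']; exact le_max_right _ _)
      have hvv' : v <+: v' := pre_of_le (hvt.trans htt) hv' (by rw [hvl]; exact hvN)
      exact hat.fix_pre htt (hon v' hvv' hvl t' hv')
    · exact ha0.2 t hvt
  subst ha1
  exact hc.inj har

include hU hU' hc in
theorem trans_aux [Finite X] {v : List X} (hv : Dom U Γ v.length) {p q : List X}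
    (hpq : p.length = q.length) (hp : ∃ s ∈ img Γ (R U v), ¬ On p s)
    (hq : ∃ s ∈ img Γ (R U v), ¬ On q s) : ∃ s ∈ img Γ (R U v), s p = q := by
  have hX : Nonempty X := inferInstance
  obtain ⟨k', hk'⟩ := hc.c1 0
  obtain ⟨n, hn⟩ := small hU hU' hc (max p.length k') (fun b hb hs => by
    obtain ⟨a, -, ha⟩ := hk' b hb (hs.mono (le_max_right _ _) (hU'.tree b hb))
    exact ⟨a, ha⟩)
  have hN : ∀ v' : List X, v'.length = max n v.length →
      ∃ w : List X, w.length = max p.length k' ∧ Lies U Γ v' w := fun v' hv' =>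
    hn v' (by rw [hv']; exact le_max_left _ _) (hv.mono hU (by rw [hv']; exact le_max_right _ _))
  obtain ⟨v₁, w₁, a1, a2, a3, a4, a5⟩ := pull hU hU' hc hv hp (le_max_left _ _)
    (le_max_right _ _) hN
  obtain ⟨v₂, w₂, b1, b2, b3, b4, b5⟩ := pull hU hU' hc hv hq
    (by rw [← hpq]; exact le_max_left _ _) (le_max_right _ _) hN
  obtain ⟨g, hg, hgo, hgv⟩ := hU.trans v v₁ v₂ a1 b1 (by rw [a2, b2])
  obtain ⟨s, hs, hgs⟩ := dom_R hU hc hv (a := g) ⟨hg, hgo⟩
  have hsU := hc.right hgs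
  have hst := hU'.tree s hsU
  refine ⟨s, hs, ?_⟩
  have hsw : s w₁ = w₂ := by
    by_contra hne
    obtain ⟨d, ⟨c, hcR, hcd⟩, hd1⟩ := img_ne hU hc (v := v₂)
      (hv.mono hU (by rw [b2]; exact le_max_right _ _))
    apply hd1
    have h1 : g⁻¹ * c * g⁻¹⁻¹ ∈ R U v₁ := by
      have := hU.R_conj (U.inv_mem hg) hcR
      rwa [← hgv, inv_ap] at this
    have h2 : (g⁻¹ * c * g⁻¹⁻¹, s⁻¹ * d * s⁻¹⁻¹) ∈ Γ :=
      Γ.mul_mem (Γ.mul_mem (Γ.inv_mem hgs) hcd) (Γ.inv_mem (Γ.inv_mem hgs))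
    have h3 : Off w₁ (s⁻¹ * d * s⁻¹⁻¹) := a5 _ ⟨_, h1, h2⟩
    have h4 : Off (s w₁) d := by
      have := h3.conj hst
      have e : s * (s⁻¹ * d * s⁻¹⁻¹) * s⁻¹ = d := by group
      rwa [e] at this
    have hl : (s w₁).length = w₂.length := by rw [hst.1, a3, b3]
    exact h4.eq_one (b5 d ⟨c, hcR, hcd⟩) (not_pre_of_ne hl hne) (not_pre_of_ne hl.symm (Ne.symm hne))
  exact hst.map_pre a4 hsw b4 hpq

include hU hc in
theorem exists_top {v : List X} (hv : Dom U Γ v.length) : ∃ w, Top U Γ v w := by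
  classical
  obtain ⟨s, hs, hs1⟩ := img_ne hU hc hv
  obtain ⟨t, ht⟩ := exists_move hs1
  have hpre : ∀ w, Lies U Γ v w → w <+: t := by
    intro w hw
    by_contra h
    exact ht (hw s hs t h)
  set n := Nat.findGreatest (fun n => Lies U Γ v (t.take n)) t.length with hn
  have h0 : Lies U Γ v (t.take 0) := by
    intro s _ u hu
    exact absurd (by simp) hu
  have h1 : Lies U Γ v (t.take n) :=
    Nat.findGreatest_spec (P := fun n => Lies U Γ v (t.take n)) (Nat.zero_le _) h0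
  refine ⟨t.take n, h1, fun w hw => ?_⟩
  have h2 := hpre w hw
  have h3 : w = t.take w.length := List.prefix_iff_eq_take.1 h2
  have h4 : w.length ≤ n := by
    apply Nat.le_findGreatest h2.length_le
    rw [← h3]; exact hw
  rw [h3]
  exact List.take_prefix_take_left h4

include hU' hc in
theorem Top.tree_img {v : List X} {s : Equiv.Perm (List X)} (hs : s ∈ img Γ (R U v)) :
    IsTree s := by
  obtain ⟨a, -, ha⟩ := hs
  exact hU'.tree s (hc.right ha)

include hU hU' hc in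
/-- the image of `R U v` is transitive on the children of `w` -/
theorem Top.trans [Finite X] {v w : List X} (hv : Dom U Γ v.length) (h : Top U Γ v w) (x y : X) :
    ∃ s ∈ img Γ (R U v), s (w ++ [x]) = w ++ [y] := by
  have htr : ∀ s ∈ img Γ (R U v), IsTree s := fun s hs => Top.tree_img hU' hc hs
  set J : Set X := {x | ∃ s ∈ img Γ (R U v), ¬ On (w ++ [x]) s} with hJ
  have hle : img Γ (R U v) ≤ U' := by
    rintro s ⟨a, -, ha⟩
    exact hc.right ha
  -- decomposition of the words below `w`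
  have hdec : ∀ u : List X, w <+: u → u = w ∨ ∃ z, w ++ [z] <+: u := by
    rintro u ⟨q, rfl⟩
    rcases q with _ | ⟨z, q⟩
    · left; simp
    · right
      exact ⟨z, q, by simp⟩
  have hJne : ∃ x, x ∈ J := by
    by_contra hcon
    push Not at hcon
    obtain ⟨s, hs, hs1⟩ := img_ne hU hc hv
    apply hs1
    ext u : 1
    rw [one_apply]
    by_cases hu : w <+: u
    · rcases hdec u hu with rfl | ⟨z, hz⟩
      · exact (h.1 s hs).fix (htr s hs)
      · have h1 : ¬ ∃ s ∈ img Γ (R U v), ¬ On (w ++ [z]) s := hcon z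
        push Not at h1
        exact h1 s hs u hz
    · exact h.1 s hs u hu
  have hJ2 : ∃ x ∈ J, ∃ y ∈ J, x ≠ y := by
    obtain ⟨x, hx⟩ := hJne
    by_contra hcon
    push Not at hcon
    have h1 : Lies U Γ v (w ++ [x]) := by
      intro s hs u hu
      by_cases hwu : w <+: u
      · rcases hdec u hwu with rfl | ⟨z, hz⟩
        · exact (h.1 s hs).fix (htr s hs)
        · have hzx : z ≠ x := by
            rintro rfl
            exact hu hz
          have hzJ : z ∉ J := fun hzJ => hzx (hcon x hx z hzJ).symm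
          have h1 : ¬ ∃ s ∈ img Γ (R U v), ¬ On (w ++ [z]) s := hzJ
          push Not at h1
          exact h1 s hs u hz
      · exact h.1 s hs u hwu
    have := (h.2 _ h1).length_le
    simp at this
  have hall : J = Set.univ := by
    refine hU'.prim (img Γ (R U v)) hle w J ?_ ?_ hJ2
    · intro x hx s hs
      have h1 : ¬ ∃ s ∈ img Γ (R U v), ¬ On (w ++ [x]) s := hx
      push Not at h1
      exact (h1 s hs).fix
    · intro x hx y hy
      exact trans_aux hU hU' hc hv (by simp) hx hy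
  have hx : x ∈ J := by rw [hall]; trivial
  have hy : y ∈ J := by rw [hall]; trivial
  exact trans_aux hU hU' hc hv (by simp) hx hy

include hU in
theorem Lies.map {v w : List X} {g s : Equiv.Perm (List X)} (hst : IsTree s)
    (hg : g ∈ U) (hgs : (g, s) ∈ Γ) (h : Lies U Γ v w) : Lies U Γ (g v) (s w) := by
  rintro d ⟨c, hcR, hcd⟩
  have h1 : g⁻¹ * c * g⁻¹⁻¹ ∈ R U v := by
    have := hU.R_conj (U.inv_mem hg) hcR
    rwa [inv_ap] at this
  have h2 : (g⁻¹ * c * g⁻¹⁻¹, s⁻¹ * d * s⁻¹⁻¹) ∈ Γ :=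
    Γ.mul_mem (Γ.mul_mem (Γ.inv_mem hgs) hcd) (Γ.inv_mem (Γ.inv_mem hgs))
  have h4 := (h _ ⟨_, h1, h2⟩).conj hst
  have e : s * (s⁻¹ * d * s⁻¹⁻¹) * s⁻¹ = d := by group
  rwa [e] at h4

include hU hU' hc in
theorem Top.map {v w : List X} {g s : Equiv.Perm (List X)} (hgs : (g, s) ∈ Γ)
    (h : Top U Γ v w) : Top U Γ (g v) (s w) := by
  have hg := hc.left hgs
  have hst := hU'.tree s (hc.right hgs)
  refine ⟨h.1.map hU hst hg hgs, fun w' hw' => ?_⟩
  have h1 := hw'.map hU hst.inv (U.inv_mem hg) (Γ.inv_mem hgs)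
  rw [inv_ap] at h1
  have h2 := hst.2 _ _ (h.2 _ h1)
  rwa [ap_inv] at h2

end

end Pool.Agent.H335.BR
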