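import Pool.Agent.H335.BR.Defs
import Pool.Agent.H335.BR.Basic

/-!
# The tree of words, and the automorphism groups of trees as topological groups
-/

set_option autoImplicit false

namespace Pool.Agent.H335.BR

open Topology Filter

/-! ### The topology of `AutT V` -/

section top

variable {V : Type} [PartialOrder V]

theorem isOpen_ev (v w : V) : IsOpen {g : AutT V | g v = w} := by
  let _ : TopologicalSpace V := ⊥
  have : DiscreteTopology V := ⟨rfl⟩
  refine ⟨{f : V → V | f v = w}, ?_, rfl⟩
  have h : Continuous (fun f : V → V => f v) := continuous_apply v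
  exact (isOpen_discrete ({w} : Set V)).preimage h

theorem continuous_of_ev {Z : Type*} [TopologicalSpace Z] {f : Z → AutT V}
    (h : ∀ v w, IsOpen {z | f z v = w}) : Continuous f := by
  let _ : TopologicalSpace V := ⊥
  have : DiscreteTopology V := ⟨rfl⟩
  rw [continuous_induced_rng]
  refine continuous_pi fun v => ?_
  refine continuous_def.2 fun s _ => ?_
  have : (fun z => (((fun (g : AutT V) (v : V) => g v) ∘ f) z) v) ⁻¹' s =
      ⋃ w ∈ s, {z | f z v = w} := by
    ext z
    simp
  rw [this]
  exact isOpen_biUnion fun w _ => h v w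

instance : IsTopologicalGroup (AutT V) where
  continuous_mul := by
    refine continuous_of_ev fun v w => ?_
    have : {z : AutT V × AutT V | (z.1 * z.2) v = w} =
        ⋃ u : V, (Prod.snd ⁻¹' {g : AutT V | g v = u}) ∩ (Prod.fst ⁻¹' {g : AutT V | g u = w}) := by
      ext z
      simp only [Set.mem_iUnion, Set.mem_inter_iff, Set.mem_preimage, Set.mem_ofPred_eq]
      constructor
      · intro h
        exact ⟨z.2 v, rfl, h⟩
      · rintro ⟨u, h1, h2⟩
        show z.1 (z.2 v) = w
        rw [h1, h2]
    show IsOpen {z : AutT V × AutT V | (z.1 * z.2) v = w}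
    rw [this]
    exact isOpen_iUnion fun u => ((isOpen_ev v u).preimage continuous_snd).inter
      ((isOpen_ev u w).preimage continuous_fst)
  continuous_inv := by
    refine continuous_of_ev fun v w => ?_
    have : {z : AutT V | z⁻¹ v = w} = {g : AutT V | g w = v} := by
      ext z
      constructor
      · rintro rfl
        exact z.apply_symm_apply v
      · rintro rfl
        exact z.symm_apply_apply w
    rw [this]
    exact isOpen_ev w v

instance : T2Space (AutT V) := by
  let _ : TopologicalSpace V := ⊥
  have : DiscreteTopology V := ⟨rfl⟩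
  refine T2Space.of_injective_continuous (f := fun (g : AutT V) (v : V) => g v) ?_
    continuous_induced_dom
  intro g h hgh
  ext v
  exact congrFun hgh v

theorem nhds_one_T {S : Set (AutT V)} (hS : S ∈ 𝓝 (1 : AutT V)) :
    ∃ F : Finset V, ∀ g : AutT V, (∀ v ∈ F, g v = v) → g ∈ S := by
  let _ : TopologicalSpace V := ⊥
  have : DiscreteTopology V := ⟨rfl⟩
  rw [nhds_induced, mem_comap] at hS
  obtain ⟨T, hT, hTS⟩ := hS
  rw [nhds_pi, Filter.mem_pi'] at hT
  obtain ⟨I, t, ht, hIt⟩ := hT
  refine ⟨I, fun g hg => hTS ?_⟩
  apply hIt
  intro v hv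
  show g v ∈ t v
  rw [hg v hv]
  exact mem_of_mem_nhds (ht v)

theorem level_map (g : AutT V) (v : V) : level (g v) = level v := by
  unfold level
  have : Set.Iio (g v) = g '' Set.Iio v := (OrderIso.image_Iio g v).symm
  rw [this, Set.ncard_image_of_injective _ g.injective]

end top

/-! ### Words -/

/-- The words over the alphabet `X`, ordered by extension: the regular rooted tree. -/
def Words (X : Type) : Type := List X

instance ordWords (X : Type) : PartialOrder (Words X) where
  le u w := List.IsPrefix (u : List X) (w : List X)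
  le_refl := fun a => List.prefix_refl (a : List X)
  le_trans := fun _ _ _ h h' => List.IsPrefix.trans h h'
  le_antisymm := fun _ _ h h' => List.IsPrefix.eq_of_length h (le_antisymm h.length_le h'.length_le)

section words

variable {X : Type}

/-- a word as a list -/
def toL (w : Words X) : List X := w
/-- a list as a word -/
def ofL (w : List X) : Words X := w

theorem le_iff {u w : Words X} : u ≤ w ↔ toL u <+: toL w := Iff.rfl

theorem toL_ofL (w : List X) : toL (ofL w) = w := rfl
theorem ofL_toL (w : Words X) : ofL (toL w) = w := rfl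

theorem lt_iff' {u w : Words X} : u < w ↔ toL u <+: toL w ∧ (toL u).length < (toL w).length := by
  rw [lt_iff_le_and_ne, le_iff]
  constructor
  · rintro ⟨h, h'⟩
    refine ⟨h, lt_of_le_of_ne h.length_le fun h2 => h' (h.eq_of_length h2)⟩
  · rintro ⟨h, h'⟩
    refine ⟨h, ?_⟩
    rintro rfl
    exact lt_irrefl _ h'

theorem Iio_words (w : Words X) :
    Set.Iio w = (fun i => ofL ((toL w).take i)) '' Set.Iio (toL w).length := by
  ext u
  rw [Set.mem_Iio, lt_iff']
  constructor
  · rintro ⟨h, h'⟩
    exact ⟨(toL u).length, h', (List.prefix_iff_eq_take.1 h).symm⟩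
  · rintro ⟨i, hi, rfl⟩
    rw [Set.mem_Iio] at hi
    refine ⟨List.take_prefix _ _, ?_⟩
    show ((toL w).take i).length < _
    rw [List.length_take]
    omega

theorem level_words (w : Words X) : level w = (toL w).length := by
  unfold level
  rw [Iio_words, Set.InjOn.ncard_image, Set.ncard_eq_toFinset_card']
  · simp
  · intro i hi j hj h
    rw [Set.mem_Iio] at hi hj
    have h1 := congrArg (fun u : Words X => (toL u).length) h
    simp only [toL_ofL, List.length_take] at h1
    omega

theorem covBy_words {u w : Words X} : u ⋖ w ↔ ∃ x, toL w = toL u ++ [x] := by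
  constructor
  · intro h
    obtain ⟨h1, h2⟩ := lt_iff'.1 h.lt
    obtain ⟨q, hq⟩ := h1
    match q, hq with
    | [], hq =>
      rw [List.append_nil] at hq
      rw [hq] at h2
      exact absurd h2 (lt_irrefl _)
    | x :: q, hq =>
      refine ⟨x, ?_⟩
      by_contra hne
      apply h.2 (c := ofL (toL u ++ [x]))
      · rw [lt_iff', toL_ofL]
        exact ⟨List.prefix_append _ _, by simp⟩
      · rw [lt_iff', toL_ofL]
        have h3 : toL u ++ [x] <+: toL w := ⟨q, by rw [← hq]; simp⟩
        refine ⟨h3, lt_of_le_of_ne h3.length_le fun h4 => hne (h3.eq_of_length h4).symm⟩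
  · rintro ⟨x, hx⟩
    refine ⟨?_, fun c hc hc' => ?_⟩
    · rw [lt_iff', hx]
      exact ⟨List.prefix_append _ _, by simp⟩
    · have h1 := (lt_iff'.1 hc).2
      have h2 := (lt_iff'.1 hc').2
      rw [hx, List.length_append, List.length_singleton] at h2
      omega

theorem children_words (u : Words X) : {w : Words X | u ⋖ w} =
    Set.range fun x : X => ofL (toL u ++ [x]) := by
  ext w
  rw [Set.mem_ofPred_eq, covBy_words]
  constructor
  · rintro ⟨x, hx⟩
    exact ⟨x, hx.symm⟩
  · rintro ⟨x, rfl⟩
    exact ⟨x, rfl⟩

theorem ncard_children [Finite X] (u : Words X) : {w : Words X | u ⋖ w}.ncard = Nat.card X := by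
  rw [children_words, ← Set.image_univ, Set.ncard_image_of_injective, Set.ncard_univ]
  intro x y h
  have h1 : toL u ++ [x] = toL u ++ [y] := h
  simpa using h1

theorem tree_words [Finite X] (h2 : 2 ≤ Nat.card X) : IsSphericalTree (Words X) where
  root := ⟨ofL [], fun _ => List.nil_prefix⟩
  finite_ancestors := by
    intro v
    rw [← Set.Iio_insert]
    refine Set.Finite.insert _ ?_
    rw [Iio_words]
    exact (Set.finite_Iio _).image _
  chain_ancestors := by
    intro v a ha b hb _
    exact List.prefix_or_prefix_of_prefix (l₃ := toL v) ha hb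
  finite_children := by
    intro v
    rw [children_words]
    exact Set.finite_range _
  two_children := by
    intro v
    rw [ncard_children]
    exact h2
  homogeneous := by
    intro u v _
    rw [ncard_children, ncard_children]

/-- tree automorphisms as permutations of words -/
def toP : AutT (Words X) →* Equiv.Perm (List X) where
  toFun g := g.toEquiv
  map_one' := rfl
  map_mul' _ _ := rfl

theorem toP_apply (g : AutT (Words X)) (w : List X) : toP g w = toL (g (ofL w)) := rfl

theorem toP_inj : Function.Injective (toP : AutT (Words X) → Equiv.Perm (List X)) := by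
  intro g h hgh
  ext w
  exact DFunLike.congr_fun hgh w

theorem toP_tree (g : AutT (Words X)) : IsTree (toP g) := by
  refine ⟨fun w => ?_, fun u w h => ?_⟩
  · have := level_map g (ofL w)
    rwa [level_words, level_words] at this
  · exact g.monotone h

/-- permutations of words preserving the tree structure, as tree automorphisms -/
def ofP (p : Equiv.Perm (List X)) (hp : IsTree p) : AutT (Words X) where
  toEquiv := p
  map_rel_iff' := hp.pre_iff

theorem toP_ofP (p : Equiv.Perm (List X)) (hp : IsTree p) : toP (ofP p hp) = p := rfl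

/-- the group of tree automorphisms corresponding to a group of permutations of words -/
def UT (U : Subgroup (Equiv.Perm (List X))) : Subgroup (AutT (Words X)) := U.comap toP

theorem mem_UT {U : Subgroup (Equiv.Perm (List X))} {g : AutT (Words X)} :
    g ∈ UT U ↔ toP g ∈ U := Iff.rfl

theorem mem_rist {U : Subgroup (Equiv.Perm (List X))} {g : AutT (Words X)} {v : List X} :
    g ∈ rist (UT U) (ofL v) ↔ toP g ∈ R U v := Iff.rfl

/-- the stabiliser of all the words of length `n` -/
def StT (n : ℕ) : Subgroup (AutT (Words X)) where
  carrier := {g | St n (toP g)}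
  mul_mem' := fun ha hb => St.mul ha hb
  one_mem' := fun _ _ => rfl
  inv_mem' := fun ha => by
    show St n (toP _)
    rw [map_inv]
    exact St.inv ha

theorem mem_StT {n : ℕ} {g : AutT (Words X)} : g ∈ StT n ↔ St n (toP g) := Iff.rfl

instance finite_level [Finite X] (n : ℕ) : Finite {w : List X // w.length = n} :=
  inferInstanceAs (Finite (List.Vector X n))

/-- the action on the words of length `n` -/
def lev (n : ℕ) : AutT (Words X) →* Equiv.Perm {w : List X // w.length = n} where
  toFun g := (toP g).subtypePerm fun w => by rw [(toP_tree g).1]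
  map_one' := rfl
  map_mul' _ _ := rfl

theorem ker_lev (n : ℕ) : (lev n : AutT (Words X) →* _).ker = StT n := by
  ext g
  rw [MonoidHom.mem_ker, mem_StT]
  constructor
  · intro h u hu
    have := DFunLike.congr_fun h ⟨u, hu⟩
    exact congrArg Subtype.val this
  · intro h
    refine Equiv.ext fun w => Subtype.ext ?_
    exact h w.1 w.2

instance finiteIndex_StT [Finite X] (n : ℕ) : (StT n : Subgroup (AutT (Words X))).FiniteIndex := by
  rw [← ker_lev]
  infer_instance

theorem isOpen_StT [Finite X] (n : ℕ) : IsOpen ((StT n : Subgroup (AutT (Words X))) : Set (AutT (Words X))) := by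
  have : ((StT n : Subgroup (AutT (Words X))) : Set (AutT (Words X))) =
      ⋂ w : {w : List X // w.length = n}, {g : AutT (Words X) | g (ofL w.1) = ofL w.1} := by
    ext g
    rw [SetLike.mem_coe, mem_StT, Set.mem_iInter]
    constructor
    · intro h w
      exact h w.1 w.2
    · intro h u hu
      exact h ⟨u, hu⟩
  rw [this]
  exact isOpen_iInter_of_finite fun w => isOpen_ev _ _

theorem StT_basis [Nonempty X] {S : Set (AutT (Words X))} (hS : S ∈ 𝓝 (1 : AutT (Words X))) :
    ∃ n, ((StT n : Subgroup (AutT (Words X))) : Set (AutT (Words X))) ⊆ S := by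
  obtain ⟨F, hF⟩ := nhds_one_T hS
  refine ⟨F.sup fun w => (toL w).length, fun g hg => hF g fun v hv => ?_⟩
  have h1 : (toL v).length ≤ F.sup fun w => (toL w).length :=
    Finset.le_sup (f := fun w => (toL w).length) hv
  exact St.mono h1 (toP_tree g) hg _ rfl

end words

end Pool.Agent.H335.BR
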